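import Pool.Agent.Lib.MP_7f581e_ntP.Char2

/-!
Generators of the symplectic group.
-/

set_option autoImplicit false

namespace MP7fP

open Matrix

variable {F : Type*} [Field F] {n : ℕ}

/-- Two vectors in the same orbit. -/
def Rch (H : Subgroup (Sp n F)) (x y : Fin n ⊕ Fin n → F) : Prop := ∃ h ∈ H, h.1 *ᵥ x = y

theorem Rch.trans {H : Subgroup (Sp n F)} {x y z : Fin n ⊕ Fin n → F} (h : Rch H x y)
    (h' : Rch H y z) : Rch H x z := by
  obtain ⟨g, hg, rfl⟩ := h
  obtain ⟨g', hg', rfl⟩ := h'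
  exact ⟨g' * g, mul_mem hg' hg, mul_mulVec _ _ _⟩

theorem Rch.refl (H : Subgroup (Sp n F)) (x : Fin n ⊕ Fin n → F) : Rch H x x :=
  ⟨1, one_mem _, one_mulVec' x⟩

theorem rch_T {H : Subgroup (Sp n F)} {v : Fin n ⊕ Fin n → F} (hv : ∀ t, T v t ∈ H)
    {x : Fin n ⊕ Fin n → F} (hx : om x v ≠ 0) (c : F) : Rch H x (x + c • v) :=
  ⟨T v (c * (om x v)⁻¹), hv _, by rw [T_mulVec, inv_mul_cancel_right₀ hx]⟩

theorem rch_o {o : Fin n} {H : Subgroup (Sp n F)} (hf : ∀ i t, T (fb i) t ∈ H) {x : Fin n ⊕ Fin n → F}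
    (hx : x (Sum.inl o) ≠ 0) : ∃ y, Rch H x y ∧ y (Sum.inr o) = 1 := by
  refine ⟨_, rch_T (hf o) (x := x) (by rwa [om_fb_right]) (1 - x (Sum.inr o)), ?_⟩
  rw [Pi.add_apply, Pi.smul_apply, fb_inr, if_pos rfl, smul_eq_mul]
  ring

theorem rch_one {o : Fin n} {H : Subgroup (Sp n F)} (he : ∀ i t, T (eb i) t ∈ H)
    (hf : ∀ i t, T (fb i) t ∈ H) (hv : ∀ i, i ≠ o → ∀ t, T (eb o + eb i) t ∈ H)
    {x : Fin n ⊕ Fin n → F} (hx : x ≠ 0) : ∃ y, Rch H x y ∧ y (Sum.inr o) = 1 := by
  -- it is enough to make the coordinate `inl o` non zero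
  suffices h : ∃ y, Rch H x y ∧ y (Sum.inl o) ≠ 0 by
    obtain ⟨y, hy, hy0⟩ := h
    obtain ⟨z, hz, hz0⟩ := rch_o hf hy0
    exact ⟨z, hy.trans hz, hz0⟩
  -- case 1: a coordinate `inr i` is not zero
  have key : ∀ x : Fin n ⊕ Fin n → F, (∃ i, x (Sum.inr i) ≠ 0) →
      ∃ y, Rch H x y ∧ y (Sum.inl o) ≠ 0 := by
    intro x hx
    by_cases h0 : x (Sum.inl o) = 0
    · by_cases h1 : x (Sum.inr o) = 0
      · obtain ⟨i, hi⟩ := hx
        have hio : i ≠ o := by
          rintro rfl
          exact hi h1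
        refine ⟨_, rch_T (hv i hio) (x := x) (by
          rw [om_add_right, om_eb_right, om_eb_right, h1, neg_zero, zero_add]
          exact neg_ne_zero.mpr hi) 1, ?_⟩
        rw [Pi.add_apply, Pi.smul_apply, Pi.add_apply, eb_inl, eb_inl, if_pos rfl, if_neg hio, h0,
          one_smul, zero_add, add_zero]
        exact one_ne_zero
      · refine ⟨_, rch_T (he o) (x := x) (by rw [om_eb_right]; exact neg_ne_zero.mpr h1) 1, ?_⟩
        rw [Pi.add_apply, Pi.smul_apply, eb_inl, if_pos rfl, h0, one_smul, zero_add]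
        exact one_ne_zero
    · exact ⟨x, Rch.refl H x, h0⟩
  obtain ⟨a, ha⟩ : ∃ a, x a ≠ 0 := by
    by_contra hcon
    push Not at hcon
    exact hx (funext hcon)
  rcases a with i | i
  · by_cases h1 : x (Sum.inr i) = 0
    · obtain ⟨z, hz, hz0⟩ := key (x + (1 : F) • fb i) ⟨i, by
        rw [Pi.add_apply, Pi.smul_apply, fb_inr, if_pos rfl, h1, one_smul, zero_add]
        exact one_ne_zero⟩
      exact ⟨z, (rch_T (hf i) (x := x) (by rwa [om_fb_right]) 1).trans hz, hz0⟩
    · exact key x ⟨i, h1⟩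
  · exact key x ⟨i, ha⟩

theorem rch_kill {o : Fin n} {H : Subgroup (Sp n F)} (he : ∀ i t, T (eb i) t ∈ H)
    (hf : ∀ i t, T (fb i) t ∈ H) (hv : ∀ i, i ≠ o → ∀ t, T (eb o + eb i) t ∈ H)
    {x : Fin n ⊕ Fin n → F} (hx : x (Sum.inr o) = 1) {i : Fin n} (hio : i ≠ o) :
    ∃ y, Rch H x y ∧ y (Sum.inr o) = 1 ∧ y (Sum.inl i) = 0 ∧ y (Sum.inr i) = 0 ∧
      ∀ j, j ≠ o → j ≠ i → y (Sum.inl j) = x (Sum.inl j) ∧ y (Sum.inr j) = x (Sum.inr j) := by
  -- first kill `inr i`
  have h1 : ∃ y, Rch H x y ∧ y (Sum.inr o) = 1 ∧ y (Sum.inr i) = 0 ∧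
      ∀ j, j ≠ o → j ≠ i → y (Sum.inl j) = x (Sum.inl j) ∧ y (Sum.inr j) = x (Sum.inr j) := by
    by_cases h0 : x (Sum.inr i) = 0
    · exact ⟨x, Rch.refl H x, hx, h0, fun j _ _ => ⟨rfl, rfl⟩⟩
    · set x1 := x + (1 - x (Sum.inl i)) • eb i with hx1
      have h2 : x1 (Sum.inl i) = 1 := by
        rw [hx1, Pi.add_apply, Pi.smul_apply, eb_inl, if_pos rfl, smul_eq_mul]
        ring
      have h2' : x1 (Sum.inr i) = x (Sum.inr i) := by
        rw [hx1, Pi.add_apply, Pi.smul_apply, eb_inr, smul_zero, add_zero]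
      refine ⟨x1 + (-x (Sum.inr i)) • fb i,
        (rch_T (he i) (x := x) (by rw [om_eb_right]; exact neg_ne_zero.mpr h0)
          (1 - x (Sum.inl i))).trans (rch_T (hf i) (x := x1) (by
            rw [om_fb_right, h2]; exact one_ne_zero) _), ?_, ?_, ?_⟩
      · rw [Pi.add_apply, Pi.smul_apply, fb_inr, if_neg hio, hx1, Pi.add_apply, Pi.smul_apply,
          eb_inr, hx, smul_zero, smul_zero, add_zero, add_zero]
      · rw [Pi.add_apply, Pi.smul_apply, fb_inr, if_pos rfl, h2', smul_eq_mul]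
        ring
      · intro j hjo hji
        constructor
        · rw [Pi.add_apply, Pi.smul_apply, fb_inl, hx1, Pi.add_apply, Pi.smul_apply, eb_inl,
            if_neg (Ne.symm hji), smul_zero, smul_zero, add_zero, add_zero]
        · rw [Pi.add_apply, Pi.smul_apply, fb_inr, hx1, Pi.add_apply, Pi.smul_apply, eb_inr,
            if_neg (Ne.symm hji), smul_zero, smul_zero, add_zero, add_zero]
  obtain ⟨y, hy, hyo, hyi, hyj⟩ := h1
  refine ⟨y + (-y (Sum.inl i)) • (eb o + eb i), hy.trans (rch_T (hv i hio) (x := y) (by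
    rw [om_add_right, om_eb_right, om_eb_right, hyo, hyi, neg_zero, add_zero]
    exact neg_ne_zero.mpr one_ne_zero) _), ?_, ?_, ?_, ?_⟩
  · rw [Pi.add_apply, Pi.smul_apply, Pi.add_apply, eb_inr, eb_inr, add_zero, smul_zero, add_zero,
      hyo]
  · rw [Pi.add_apply, Pi.smul_apply, Pi.add_apply, eb_inl, eb_inl, if_neg hio.symm, if_pos rfl,
      smul_eq_mul]
    ring
  · rw [Pi.add_apply, Pi.smul_apply, Pi.add_apply, eb_inr, eb_inr, add_zero, smul_zero, add_zero,
      hyi]
  · intro j hjo hji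
    constructor
    · rw [Pi.add_apply, Pi.smul_apply, Pi.add_apply, eb_inl, eb_inl, if_neg (Ne.symm hjo),
        if_neg (Ne.symm hji), add_zero, smul_zero, add_zero, (hyj j hjo hji).1]
    · rw [Pi.add_apply, Pi.smul_apply, Pi.add_apply, eb_inr, eb_inr, add_zero, smul_zero, add_zero,
        (hyj j hjo hji).2]

theorem rch_all {o : Fin n} {H : Subgroup (Sp n F)} (he : ∀ i t, T (eb i) t ∈ H)
    (hf : ∀ i t, T (fb i) t ∈ H) (hv : ∀ i, i ≠ o → ∀ t, T (eb o + eb i) t ∈ H)
    {x : Fin n ⊕ Fin n → F} (hx : x ≠ 0) : Rch H x (eb o) := by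
  obtain ⟨y, hy, hyo⟩ := rch_one he hf hv hx
  have h1 : ∀ S : Finset (Fin n), o ∉ S → ∃ z, Rch H y z ∧ z (Sum.inr o) = 1 ∧
      ∀ i ∈ S, z (Sum.inl i) = 0 ∧ z (Sum.inr i) = 0 := by
    intro S
    induction S using Finset.induction_on with
    | empty => exact fun _ => ⟨y, Rch.refl H y, hyo, fun i hi => absurd hi (Finset.notMem_empty i)⟩
    | insert a S ha ih =>
      intro ho
      rw [Finset.mem_insert, not_or] at ho
      obtain ⟨z, hz, hzo, hzS⟩ := ih ho.2
      obtain ⟨z', hz', hzo', hzl, hzr, hzj⟩ := rch_kill he hf hv hzo (Ne.symm ho.1)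
      refine ⟨z', hz.trans hz', hzo', ?_⟩
      intro i hi
      rcases Finset.mem_insert.mp hi with rfl | hi'
      · exact ⟨hzl, hzr⟩
      · have hio : i ≠ o := by
          rintro rfl
          exact ho.2 hi'
        have hia : i ≠ a := by
          rintro rfl
          exact ha hi'
        rw [(hzj i hio hia).1, (hzj i hio hia).2]
        exact hzS i hi'
  obtain ⟨z, hz, hzo, hzS⟩ := h1 (Finset.univ.erase o) (Finset.notMem_erase o _)
  have hz1 : z = z (Sum.inl o) • eb o + fb o := by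
    funext a
    rcases a with i | i
    · by_cases hi : i = o
      · rw [hi, Pi.add_apply, Pi.smul_apply, eb_inl, fb_inl, if_pos rfl, smul_eq_mul, mul_one,
          add_zero]
      · rw [(hzS i (Finset.mem_erase.mpr ⟨hi, Finset.mem_univ _⟩)).1, Pi.add_apply, Pi.smul_apply,
          eb_inl, fb_inl, if_neg (Ne.symm hi), smul_zero, add_zero]
    · by_cases hi : i = o
      · rw [hi, Pi.add_apply, Pi.smul_apply, eb_inr, fb_inr, if_pos rfl, smul_zero, zero_add, hzo]
      · rw [(hzS i (Finset.mem_erase.mpr ⟨hi, Finset.mem_univ _⟩)).2, Pi.add_apply, Pi.smul_apply,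
          eb_inr, fb_inr, if_neg (Ne.symm hi), smul_zero, add_zero]
  have h2 : Rch H z (eb o + fb o) := by
    have h3 := rch_T (he o) (x := z) (by
      rw [om_eb_right, hzo]; exact neg_ne_zero.mpr one_ne_zero) (1 - z (Sum.inl o))
    have h4 : z + (1 - z (Sum.inl o)) • eb o = eb o + fb o := by
      conv_lhs => rw [hz1]
      rw [Pi.add_apply, Pi.smul_apply, eb_inl, fb_inl, if_pos rfl, smul_eq_mul, mul_one, add_zero]
      module
    rwa [h4] at h3
  have h5 : Rch H (eb o + fb o) (eb o) := by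
    have h3 := rch_T (hf o) (x := eb o + fb o) (by
      rw [om_add_left, om_eb_fb, if_pos rfl, om_self, add_zero]; exact one_ne_zero) (-1)
    have h4 : eb o + fb o + (-1 : F) • fb o = (eb o : Fin n ⊕ Fin n → F) := by
      module
    rwa [h4] at h3
  exact hy.trans (hz.trans (h2.trans h5))

theorem T_mem_of {H : Subgroup (Sp n F)} {u v : Fin n ⊕ Fin n → F} (h : Rch H v u)
    (hu : ∀ t, T u t ∈ H) (t : F) : T v t ∈ H := by
  obtain ⟨g, hg, rfl⟩ := h
  have h1 := hu t
  rw [← conj_T] at h1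
  have h2 := mul_mem (mul_mem (inv_mem hg) h1) hg
  have h3 : g⁻¹ * (g * T v t * g⁻¹) * g = T v t := by group
  rwa [h3] at h2

/-- The group generated by all transvections is the symplectic group. -/
theorem gen_T {H : Subgroup (Sp n F)} (hT : ∀ v t, T v t ∈ H) : H = ⊤ := by
  rw [eq_top_iff]
  have hsw : ∀ {v w : Fin n ⊕ Fin n → F}, om v w ≠ 0 → ∃ h ∈ H, h.1 *ᵥ v = w ∧
      ∀ x, om x (v - w) = 0 → h.1 *ᵥ x = x := fun {v w} h =>
    ⟨_, hT _ _, swap_vec h, fun x hx => T_fix hx _⟩
  have key : ∀ S : Finset (Fin n), ∀ g : Sp n F,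
      (∀ i, i ∉ S → g.1 *ᵥ eb i = eb i ∧ g.1 *ᵥ fb i = fb i) → g ∈ H := by
    intro S
    induction S using Finset.induction_on with
    | empty =>
      intro g hg
      have : g = 1 := by
        apply Subtype.ext
        ext a b
        rw [apply_eq]
        rcases b with b | b
        · have h1 := (hg b (Finset.notMem_empty b)).1
          rw [eb] at h1
          rw [h1, Pi.single_apply]
          exact (Matrix.one_apply).symm
        · have h1 := (hg b (Finset.notMem_empty b)).2
          rw [fb] at h1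
          rw [h1, Pi.single_apply]
          exact (Matrix.one_apply).symm
      rw [this]
      exact one_mem _
    | insert k S hk ih =>
      intro g hg
      set v := g.1 *ᵥ eb k with hv
      set w := g.1 *ᵥ fb k with hw
      have hvw : om v w = 1 := by rw [hv, hw, om_mulVec g.2, om_eb_fb, if_pos rfl]
      -- orthogonality to the fixed vectors
      have hne : ∀ i, i ∉ insert k S → i ≠ k := by
        rintro i hi rfl
        exact hi (Finset.mem_insert_self _ _)
      have hvo : ∀ i, i ∉ insert k S → om (eb i) v = 0 ∧ om (fb i) v = 0 := by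
        intro i hi
        constructor
        · rw [← (hg i hi).1, hv, om_mulVec g.2, om_eb_eb]
        · rw [← (hg i hi).2, hv, om_mulVec g.2, om_fb_eb, if_neg (hne i hi)]
      have hwo : ∀ i, i ∉ insert k S → om (eb i) w = 0 ∧ om (fb i) w = 0 := by
        intro i hi
        constructor
        · rw [← (hg i hi).1, hw, om_mulVec g.2, om_eb_fb, if_neg (hne i hi)]
        · rw [← (hg i hi).2, hw, om_mulVec g.2, om_fb_fb]
      have heo : ∀ i, i ∉ insert k S → om (eb i : Fin n ⊕ Fin n → F) (eb k) = 0 ∧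
          om (fb i : Fin n ⊕ Fin n → F) (eb k) = 0 := fun i hi =>
        ⟨om_eb_eb _ _, by rw [om_fb_eb, if_neg (hne i hi)]⟩
      have hfo : ∀ i, i ∉ insert k S → om (eb i : Fin n ⊕ Fin n → F) (fb k) = 0 ∧
          om (fb i : Fin n ⊕ Fin n → F) (fb k) = 0 := fun i hi =>
        ⟨by rw [om_eb_fb, if_neg (hne i hi)], om_fb_fb _ _⟩
      have hek : om (eb k : Fin n ⊕ Fin n → F) (fb k) = 1 := by rw [om_eb_fb, if_pos rfl]
      have hke : om (fb k : Fin n ⊕ Fin n → F) (eb k) = -1 := by rw [om_fb_eb, if_pos rfl]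
      -- an intermediate vector
      obtain ⟨u, hu1, hu2, huo⟩ : ∃ u, om v u ≠ 0 ∧ om u (eb k) ≠ 0 ∧
          ∀ i, i ∉ insert k S → om (eb i) u = 0 ∧ om (fb i) u = 0 := by
        by_cases h1 : om w (eb k) = 0
        · by_cases h2 : om v (fb k) = 0
          · refine ⟨w + fb k, ?_, ?_, ?_⟩
            · rw [om_add_right, hvw, h2, add_zero]; exact one_ne_zero
            · rw [om_add_left, h1, hke, zero_add]; exact neg_ne_zero.mpr one_ne_zero
            · intro i hi
              rw [om_add_right, om_add_right, (hwo i hi).1, (hwo i hi).2, (hfo i hi).1,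
                (hfo i hi).2, add_zero]
              exact ⟨rfl, rfl⟩
          · exact ⟨fb k, h2, by rw [hke]; exact neg_ne_zero.mpr one_ne_zero, hfo⟩
        · exact ⟨w, by rw [hvw]; exact one_ne_zero, h1, hwo⟩
      obtain ⟨g1, hg1, hg1v, hg1x⟩ := hsw hu1
      obtain ⟨g2, hg2, hg2v, hg2x⟩ := hsw hu2
      -- the image of `w`
      set w' := g2.1 *ᵥ (g1.1 *ᵥ w) with hw'
      have hfix : ∀ i, i ∉ insert k S → g2.1 *ᵥ (g1.1 *ᵥ eb i) = eb i ∧
          g2.1 *ᵥ (g1.1 *ᵥ fb i) = fb i := by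
        intro i hi
        constructor
        · rw [hg1x, hg2x]
          · rw [om_sub_right, (huo i hi).1, (heo i hi).1, sub_zero]
          · rw [om_sub_right, (huo i hi).1, (hvo i hi).1, sub_zero]
        · rw [hg1x, hg2x]
          · rw [om_sub_right, (huo i hi).2, (heo i hi).2, sub_zero]
          · rw [om_sub_right, (huo i hi).2, (hvo i hi).2, sub_zero]
      have hew' : om (eb k) w' = 1 := by
        rw [hw', ← hg2v, ← hg1v, om_mulVec g2.2, om_mulVec g1.2, hvw]
      have hw'o : ∀ i, i ∉ insert k S → om (eb i) w' = 0 ∧ om (fb i) w' = 0 := by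
        intro i hi
        constructor
        · conv_lhs => rw [← (hfix i hi).1]
          rw [hw', om_mulVec g2.2, om_mulVec g1.2, (hwo i hi).1]
        · conv_lhs => rw [← (hfix i hi).2]
          rw [hw', om_mulVec g2.2, om_mulVec g1.2, (hwo i hi).2]
      -- move `w'` to `fb k`
      obtain ⟨g3, hg3, hg3e, hg3w, hg3o⟩ : ∃ h ∈ H, h.1 *ᵥ eb k = eb k ∧ h.1 *ᵥ w' = fb k ∧
          ∀ i, i ∉ insert k S → h.1 *ᵥ eb i = eb i ∧ h.1 *ᵥ fb i = fb i := by
        by_cases h0 : om w' (fb k) = 0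
        · have h1 : om w' (eb k + w') ≠ 0 := by
            rw [om_add_right, om_self, om_swap, hew', add_zero]
            exact neg_ne_zero.mpr one_ne_zero
          have h2 : om (eb k + w') (fb k) ≠ 0 := by
            rw [om_add_left, h0, hek, add_zero]
            exact one_ne_zero
          obtain ⟨g4, hg4, hg4v, hg4x⟩ := hsw h1
          obtain ⟨g5, hg5, hg5v, hg5x⟩ := hsw h2
          refine ⟨g5 * g4, mul_mem hg5 hg4, ?_, ?_, ?_⟩
          · rw [mul_mulVec, hg4x, hg5x]
            · rw [om_sub_right, om_add_right, om_self, hew', hek]; ring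
            · rw [om_sub_right, om_add_right, om_self, hew']; ring
          · rw [mul_mulVec, hg4v, hg5v]
          · intro i hi
            constructor
            · rw [mul_mulVec, hg4x, hg5x]
              · rw [om_sub_right, om_add_right, (heo i hi).1, (hw'o i hi).1, (hfo i hi).1]; ring
              · rw [om_sub_right, om_add_right, (heo i hi).1, (hw'o i hi).1]; ring
            · rw [mul_mulVec, hg4x, hg5x]
              · rw [om_sub_right, om_add_right, (heo i hi).2, (hw'o i hi).2, (hfo i hi).2]; ring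
              · rw [om_sub_right, om_add_right, (heo i hi).2, (hw'o i hi).2]; ring
        · obtain ⟨g4, hg4, hg4v, hg4x⟩ := hsw h0
          refine ⟨g4, hg4, ?_, hg4v, ?_⟩
          · rw [hg4x]
            rw [om_sub_right, hew', hek, sub_self]
          · intro i hi
            constructor
            · rw [hg4x]
              rw [om_sub_right, (hw'o i hi).1, (hfo i hi).1, sub_zero]
            · rw [hg4x]
              rw [om_sub_right, (hw'o i hi).2, (hfo i hi).2, sub_zero]
      have h6 : g3 * (g2 * g1) * g ∈ H := by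
        apply ih
        intro i hi
        by_cases hik : i = k
        · rw [hik]
          constructor
          · rw [mul_mulVec, mul_mulVec, mul_mulVec, ← hv, hg1v, hg2v, hg3e]
          · rw [mul_mulVec, mul_mulVec, mul_mulVec, ← hw, ← hw', hg3w]
        · have hi' : i ∉ insert k S := by
            rw [Finset.mem_insert, not_or]
            exact ⟨hik, hi⟩
          constructor
          · rw [mul_mulVec, mul_mulVec, mul_mulVec, (hg i hi').1, (hfix i hi').1, (hg3o i hi').1]
          · rw [mul_mulVec, mul_mulVec, mul_mulVec, (hg i hi').2, (hfix i hi').2, (hg3o i hi').2]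
      exact (Subgroup.mul_mem_cancel_left H (mul_mem hg3 (mul_mem hg2 hg1))).mp h6
  intro g _
  exact key Finset.univ g fun i hi => absurd (Finset.mem_univ i) hi

/-- Generators of the symplectic group. -/
theorem gen {o : Fin n} {H : Subgroup (Sp n F)} (he : ∀ i t, T (eb i) t ∈ H)
    (hf : ∀ i t, T (fb i) t ∈ H) (hv : ∀ i, i ≠ o → ∀ t, T (eb o + eb i) t ∈ H) : H = ⊤ := by
  apply gen_T
  intro v t
  by_cases h0 : v = 0
  · have : T v t = 1 := by
      apply sp_ext
      intro x
      rw [T_mulVec, h0, smul_zero, add_zero, one_mulVec']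
    rw [this]
    exact one_mem _
  · exact T_mem_of (rch_all he hf hv h0) (he o) t

end MP7fP
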