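import Pool.Agent.Lib.MP_7f581e_ntP.Root

/-!
Automorphisms of `PSp(2n, F)`: images of the transvections, normalization.
-/

set_option autoImplicit false

namespace MP7fP

open Matrix

variable {F : Type*} [Field F] {n : ℕ}

theorem exists_fix (h2 : 2 ≤ n) (a b : Fin n ⊕ Fin n → F) :
    ∃ x : Fin n ⊕ Fin n → F, x ≠ 0 ∧ om x a = 0 ∧ om x b = 0 := by
  let φ : (Fin n ⊕ Fin n → F) →ₗ[F] (Fin 2 → F) := Matrix.mulVecLin (Matrix.of ![dv a, dv b])
  have h1 : LinearMap.ker φ ≠ ⊥ := by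
    apply LinearMap.ker_ne_bot_of_finrank_lt
    rw [Module.finrank_fin_fun, Module.finrank_pi, Fintype.card_sum, Fintype.card_fin]
    omega
  obtain ⟨w, hw, hw0⟩ := Submodule.exists_mem_ne_zero_of_ne_bot h1
  exact ⟨w, hw0, congrFun hw 0, congrFun hw 1⟩

theorem mkT_eq (h2 : 2 ≤ n) {a b : Fin n ⊕ Fin n → F} {s t : F}
    (h : mkS n F (T a s) = mkS n F (T b t)) : T a s = T b t := by
  obtain ⟨c, hc⟩ := mkS_eq h
  obtain ⟨x, hx, hxa, hxb⟩ := exists_fix h2 a b
  have h1 : (T a s).1 *ᵥ x = x := T_fix hxa s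
  rw [hc, Matrix.smul_mulVec, T_fix hxb] at h1
  have h3 : c = 1 := by
    have : (c - 1) • x = 0 := by rw [sub_smul, h1, one_smul, sub_self]
    exact sub_eq_zero.mp ((smul_eq_zero.mp this).resolve_right hx)
  apply Subtype.ext
  rw [hc, h3, one_smul]

theorem T_inj {a : Fin n ⊕ Fin n → F} (ha : a ≠ 0) {s t : F} (h : T a s = T a t) : s = t := by
  by_contra hne
  have h1 : T a (s - t) = 1 := by rw [sub_eq_add_neg, T_add, T_neg, h, mul_inv_cancel]
  exact T_ne_one ha (sub_ne_zero.mpr hne) h1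

theorem om_of_comm (h2 : 2 ≤ n) {a b : Fin n ⊕ Fin n → F} (ha : a ≠ 0) (hb : b ≠ 0) {s t : F}
    (hs : s ≠ 0) (ht : t ≠ 0)
    (h : mkS n F (T a s) * mkS n F (T b t) = mkS n F (T b t) * mkS n F (T a s)) : om b a = 0 := by
  have h1 : mkS n F (T ((T a s).1 *ᵥ b) t) = mkS n F (T b t) := by
    rw [← conj_T, map_mul, map_mul, map_inv, h, mul_inv_cancel_right]
  have h3 := mkT_eq h2 h1
  obtain ⟨c, -, hc, -⟩ := T_eq (mulVec_ne_zero _ hb) ht h3
  rw [T_mulVec] at hc
  by_contra h0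
  have h4 := congrArg (fun x => om x a) hc
  simp only [om_add_left, om_smul_left, om_self, mul_zero, add_zero] at h4
  have h5 : c = 1 := by
    have : (1 - c) * om b a = 0 := by linear_combination h4
    exact (sub_eq_zero.mp ((mul_eq_zero.mp this).resolve_right h0)).symm
  rw [h5, one_smul, add_eq_left] at hc
  rcases smul_eq_zero.mp hc with h6 | h6
  · exact mul_ne_zero hs h0 h6
  · exact ha h6

/-- The automorphism maps the transvections with centre `w` to transvections with centre `w'`. -/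
def Im (α : PSp n F ≃* PSp n F) (S : F → F) (w w' : Fin n ⊕ Fin n → F) : Prop :=
  w' ≠ 0 ∧ ∀ t, α (mkS n F (T w t)) = mkS n F (T w' (S t))

theorem exists_im [Finite F] (h2 : 2 ≤ n) (h3 : (2 : F) = 0 → 3 ≤ n) (α : PSp n F ≃* PSp n F) :
    ∃ S : F → F, ∀ w, w ≠ 0 → ∃ w', Im α S w w' := by
  obtain ⟨g, hg⟩ := exists_conj_T h2 h3 α
  choose S hS using hg
  refine ⟨S, fun w hw => ?_⟩
  obtain ⟨h, hh⟩ := exists_trans (eb_ne_zero (⟨0, by omega⟩ : Fin n)) hw
  obtain ⟨h', hh'⟩ := mkS_surj (α (mkS n F h))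
  refine ⟨(h' * g).1 *ᵥ eb ⟨0, by omega⟩, mulVec_ne_zero _ (eb_ne_zero _), fun t => ?_⟩
  rw [← hh, ← conj_T, ← conj_T]
  simp only [map_mul, map_inv, hS, hh', _root_.mul_inv_rev]
  group

section

variable {α : PSp n F ≃* PSp n F} {S : F → F} {w w' u u' : Fin n ⊕ Fin n → F}

theorem Im.S_add (h2 : 2 ≤ n) (h : Im α S w w') (s t : F) : S (s + t) = S s + S t := by
  apply T_inj h.1
  apply mkT_eq h2
  rw [← h.2, T_add, map_mul, map_mul, h.2, h.2, T_add, map_mul]

theorem Im.S_zero (h2 : 2 ≤ n) (h : Im α S w w') : S 0 = 0 := by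
  have := h.S_add h2 0 0
  rw [add_zero] at this
  exact left_eq_add.mp this

theorem Im.S_ne_zero (h2 : 2 ≤ n) (hw : w ≠ 0) (h : Im α S w w') {t : F} (ht : t ≠ 0) :
    S t ≠ 0 := by
  intro h0
  have h1 := h.2 t
  rw [h0, T_zero, map_one] at h1
  have h3 : mkS n F (T w t) = mkS n F (T w 0) := by
    apply α.injective
    rw [h1, T_zero, map_one, map_one]
  exact ht (T_inj hw (mkT_eq h2 h3))

theorem Im.om_iff (h2 : 2 ≤ n) (hw : w ≠ 0) (hu : u ≠ 0) (h : Im α S w w') (h' : Im α S u u') :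
    om w u = 0 ↔ om w' u' = 0 := by
  have hS := h.S_ne_zero h2 hw (one_ne_zero (α := F))
  constructor
  · intro h0
    apply om_of_comm h2 h'.1 h.1 hS hS
    rw [← h.2, ← h'.2, ← map_mul, ← map_mul, ← map_mul, ← map_mul, T_comm h0]
  · intro h0
    apply om_of_comm h2 hu hw (one_ne_zero (α := F)) (one_ne_zero (α := F))
    apply α.injective
    rw [map_mul, map_mul, h.2, h'.2, ← map_mul, ← map_mul, T_comm h0]

/-- Conjugation of an automorphism. -/
def cj (g : Sp n F) (α : PSp n F ≃* PSp n F) : PSp n F ≃* PSp n F :=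
  α.trans (MulAut.conj (mkS n F g)⁻¹)

theorem cj_apply (g : Sp n F) (α : PSp n F ≃* PSp n F) (x : PSp n F) :
    cj g α x = (mkS n F g)⁻¹ * α x * mkS n F g := by
  change MulAut.conj (mkS n F g)⁻¹ (α x) = _
  rw [MulAut.conj_apply, inv_inv]

theorem cj_cj (g h : Sp n F) (α : PSp n F ≃* PSp n F) : cj h (cj g α) = cj (g * h) α := by
  ext x
  simp only [cj_apply, map_mul, _root_.mul_inv_rev]
  group

theorem Im.cj (h : Im α S w w') (g : Sp n F) : Im (cj g α) S w ((g⁻¹).1 *ᵥ w') := by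
  refine ⟨mulVec_ne_zero _ h.1, fun t => ?_⟩
  rw [cj_apply, h.2, ← conj_T, inv_inv, map_mul, map_mul, map_inv]

/-- The automorphism fixes the root group with centre `w`. -/
def Fx (α : PSp n F ≃* PSp n F) (S : F → F) (w : Fin n ⊕ Fin n → F) : Prop :=
  ∃ c : F, c ≠ 0 ∧ ∀ t, α (mkS n F (T w t)) = mkS n F (T w (c * S t))

theorem Im.fx {k : F} (hk : k ≠ 0) (h : Im α S w (k • w)) : Fx α S w :=
  ⟨k ^ 2, pow_ne_zero 2 hk, fun t => by rw [h.2, T_smul]⟩

end

/-- Frames. -/
theorem exists_frame (e f : Fin n → Fin n ⊕ Fin n → F) (hee : ∀ i j, om (e i) (e j) = 0)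
    (hff : ∀ i j, om (f i) (f j) = 0) (hef : ∀ i j, om (e i) (f j) = if i = j then 1 else 0) :
    ∃ g : Sp n F, ∀ i, g.1 *ᵥ eb i = e i ∧ g.1 *ᵥ fb i = f i := by
  let M : Matrix (Fin n ⊕ Fin n) (Fin n ⊕ Fin n) F := fun a b => Sum.elim e f b a
  have hM : ∀ b, M *ᵥ Pi.single b 1 = Sum.elim e f b := by
    intro b
    rw [Matrix.mulVec_single_one]
    rfl
  have h1 : M ∈ symplecticGroup (Fin n) F := by
    rw [SymplecticGroup.mem_iff']
    ext a b
    have h2 : ∀ A B : Matrix (Fin n ⊕ Fin n) (Fin n ⊕ Fin n) F, (Aᵀ * B * A) a b =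
        (A *ᵥ Pi.single a 1) ⬝ᵥ (B *ᵥ (A *ᵥ Pi.single b 1)) := by
      intro A B
      have h3 : (Aᵀ * B * A) a b = (Aᵀ * (B * A)) a b := by rw [mul_assoc]
      rw [h3, Matrix.mul_apply, dotProduct]
      apply Finset.sum_congr rfl
      intro c _
      rw [Matrix.transpose_apply, Matrix.mulVec_single_one, Matrix.mulVec_mulVec,
        Matrix.mulVec_single_one]
      rfl
    have h4 : ∀ x y : Fin n ⊕ Fin n → F, x ⬝ᵥ (J (Fin n) F *ᵥ y) = -om x y := by
      intro x y
      rw [om_eq_J, neg_neg]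
    have h5 := h2 1 (J (Fin n) F)
    rw [Matrix.transpose_one, one_mul, mul_one, Matrix.one_mulVec, Matrix.one_mulVec, h4] at h5
    rw [h2, h4, h5, hM, hM, neg_inj]
    rcases a with a | a <;> rcases b with b | b
    · rw [Sum.elim_inl, Sum.elim_inl, hee]
      exact (om_eb_eb a b).symm
    · rw [Sum.elim_inl, Sum.elim_inr, hef]
      exact (om_eb_fb a b).symm
    · rw [Sum.elim_inl, Sum.elim_inr, om_swap, hef]
      have h6 := om_fb_eb (F := F) a b
      rw [eb, fb] at h6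
      rw [h6]
      by_cases h7 : a = b
      · rw [if_pos h7, if_pos h7.symm]
      · rw [if_neg h7, if_neg (Ne.symm h7), neg_zero]
    · rw [Sum.elim_inr, Sum.elim_inr, hff]
      exact (om_fb_fb a b).symm
  exact ⟨⟨M, h1⟩, fun i => ⟨hM (Sum.inl i), hM (Sum.inr i)⟩⟩

/-- Coordinates. -/
theorem eq_of_om {x y : Fin n ⊕ Fin n → F} (he : ∀ i, om x (eb i) = om y (eb i))
    (hf : ∀ i, om x (fb i) = om y (fb i)) : x = y := by
  funext a
  rcases a with i | i
  · have := hf i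
    rwa [om_fb_right, om_fb_right] at this
  · have := he i
    rwa [om_eb_right, om_eb_right, neg_inj] at this

/-- Normalization of an automorphism. -/
theorem exists_norm [Finite F] (h2 : 2 ≤ n) (h3 : (2 : F) = 0 → 3 ≤ n) (o : Fin n)
    (α : PSp n F ≃* PSp n F) : ∃ (g : Sp n F) (S : F → F), (∀ s t, S (s + t) = S s + S t) ∧
      S 1 ≠ 0 ∧ (∀ i, Fx (cj g α) S (eb i)) ∧ (∀ i, Fx (cj g α) S (fb i)) ∧
      ∀ i, i ≠ o → Fx (cj g α) S (eb o + eb i) := by
  obtain ⟨S, hS⟩ := exists_im h2 h3 α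
  choose! v hv using hS
  -- the first frame
  set e : Fin n → Fin n ⊕ Fin n → F := fun i => v (eb i) with he
  set f : Fin n → Fin n ⊕ Fin n → F := fun i => (om (v (eb i)) (v (fb i)))⁻¹ • v (fb i) with hf
  have hvi : ∀ x y, x ≠ 0 → y ≠ 0 → (om x y = 0 ↔ om (v x) (v y) = 0) := fun x y hx hy =>
    Im.om_iff h2 hx hy (hv x hx) (hv y hy)
  have hd : ∀ i, om (v (eb i)) (v (fb i)) ≠ 0 := by
    intro i h0
    rw [← hvi _ _ (eb_ne_zero i) (fb_ne_zero i), om_eb_fb, if_pos rfl] at h0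
    exact one_ne_zero h0
  obtain ⟨g1, hg1⟩ := exists_frame e f
    (fun i j => (hvi _ _ (eb_ne_zero i) (eb_ne_zero j)).mp (om_eb_eb i j))
    (fun i j => by
      rw [hf, om_smul_left, om_smul_right,
        (hvi _ _ (fb_ne_zero i) (fb_ne_zero j)).mp (om_fb_fb i j), mul_zero, mul_zero])
    (fun i j => by
      rw [he, hf, om_smul_right]
      split_ifs with hij
      · rw [hij]
        exact inv_mul_cancel₀ (hd j)
      · rw [(hvi _ _ (eb_ne_zero i) (fb_ne_zero j)).mp (by rw [om_eb_fb, if_neg hij]), mul_zero])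
  set α1 := cj g1 α with hα1
  have he1 : ∀ i, Im α1 S (eb i) (eb i) := by
    intro i
    have h4 := (hv _ (eb_ne_zero i)).cj g1
    have h5 : (g1⁻¹).1 *ᵥ v (eb i) = eb i := by
      have : v (eb i) = g1.1 *ᵥ eb i := (hg1 i).1.symm
      rw [this, inv_mulVec]
    rwa [h5] at h4
  have hf1 : ∀ i, Im α1 S (fb i) (om (v (eb i)) (v (fb i)) • fb i) := by
    intro i
    have h4 := (hv _ (fb_ne_zero i)).cj g1
    have h5 : (g1⁻¹).1 *ᵥ v (fb i) = om (v (eb i)) (v (fb i)) • fb i := by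
      have h6 : v (fb i) = om (v (eb i)) (v (fb i)) • g1.1 *ᵥ fb i := by
        rw [(hg1 i).2, hf]
        simp only
        rw [smul_smul, mul_inv_cancel₀ (hd i), one_smul]
      conv_lhs => rw [h6]
      rw [Matrix.mulVec_smul, inv_mulVec]
    rwa [h5] at h4
  -- the vectors `e_o + e_i`
  have hvne : ∀ i, i ≠ o → (eb o + eb i : Fin n ⊕ Fin n → F) ≠ 0 := by
    intro i hi h0
    have := congrFun h0 (Sum.inl o)
    rw [Pi.add_apply, eb_inl, eb_inl, if_pos rfl, if_neg hi, add_zero] at this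
    exact one_ne_zero this
  have hw : ∀ i, i ≠ o → ∃ a b : F, a ≠ 0 ∧ b ≠ 0 ∧
      Im α1 S (eb o + eb i) (a • eb o + b • eb i) := by
    intro i hi
    have h4 := (hv _ (hvne i hi)).cj g1
    set y := (g1⁻¹).1 *ᵥ v (eb o + eb i) with hy
    have h5 : ∀ j, om y (eb j) = 0 := by
      intro j
      rw [← Im.om_iff h2 (hvne i hi) (eb_ne_zero j) h4 (he1 j), om_add_left, om_eb_eb, om_eb_eb,
        add_zero]
    have h6 : ∀ j, om y (fb j) = 0 ↔ om (eb o + eb i : Fin n ⊕ Fin n → F) (fb j) = 0 := by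
      intro j
      rw [Im.om_iff h2 (hvne i hi) (fb_ne_zero j) h4 (hf1 j), om_smul_right, mul_eq_zero,
        or_iff_right (hd j)]
    refine ⟨om y (fb o), om y (fb i), ?_, ?_, ?_⟩
    · rw [Ne, h6, om_add_left, om_eb_fb, om_eb_fb, if_pos rfl, if_neg hi, add_zero]
      exact one_ne_zero
    · rw [Ne, h6, om_add_left, om_eb_fb, om_eb_fb, if_pos rfl, if_neg hi.symm, zero_add]
      exact one_ne_zero
    · have h7 : om y (fb o) • eb o + om y (fb i) • eb i = y := by
        apply eq_of_om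
        · intro j
          rw [h5, om_add_left, om_smul_left, om_smul_left, om_eb_eb, om_eb_eb, mul_zero, mul_zero,
            add_zero]
        · intro j
          rw [om_add_left, om_smul_left, om_smul_left, om_eb_fb, om_eb_fb]
          by_cases hjo : o = j
          · subst hjo
            rw [if_pos rfl, if_neg hi, mul_zero, add_zero, mul_one]
          · by_cases hji : i = j
            · subst hji
              rw [if_pos rfl, if_neg hi.symm, mul_zero, zero_add, mul_one]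
            · rw [if_neg hjo, if_neg hji, mul_zero, mul_zero, add_zero, eq_comm, h6, om_add_left,
                om_eb_fb, om_eb_fb, if_neg hjo, if_neg hji, add_zero]
      rw [h7]
      exact h4
  choose! a b ha hb hab using hw
  -- the diagonal element
  set d : Fin n → F := fun i => if i = o then 1 else b i / a i with hdd
  have hdne : ∀ i, d i ≠ 0 := by
    intro i
    rw [hdd]
    simp only
    split_ifs with h
    · exact one_ne_zero
    · exact div_ne_zero (hb i h) (ha i h)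
  obtain ⟨g2, hg2⟩ := exists_frame (fun i => d i • eb i) (fun i => (d i)⁻¹ • fb i)
    (fun i j => by rw [om_smul_left, om_smul_right, om_eb_eb, mul_zero, mul_zero])
    (fun i j => by rw [om_smul_left, om_smul_right, om_fb_fb, mul_zero, mul_zero])
    (fun i j => by
      rw [om_smul_left, om_smul_right, om_eb_fb]
      split_ifs with h
      · rw [h, mul_one, mul_inv_cancel₀ (hdne j)]
      · rw [mul_zero, mul_zero])
  refine ⟨g1 * g2, S, (he1 o).S_add h2, (he1 o).S_ne_zero h2 (eb_ne_zero o) one_ne_zero, ?_, ?_, ?_⟩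
  · intro i
    rw [← cj_cj]
    have h4 := (he1 i).cj g2
    have h5 : (g2⁻¹).1 *ᵥ eb i = (d i)⁻¹ • (eb i : Fin n ⊕ Fin n → F) := by
      apply mulVec_inj g2
      rw [mulVec_inv, Matrix.mulVec_smul, (hg2 i).1, smul_smul, inv_mul_cancel₀ (hdne i), one_smul]
    rw [h5] at h4
    exact h4.fx (inv_ne_zero (hdne i))
  · intro i
    rw [← cj_cj]
    have h4 := (hf1 i).cj g2
    have h5 : (g2⁻¹).1 *ᵥ fb i = d i • (fb i : Fin n ⊕ Fin n → F) := by
      apply mulVec_inj g2
      rw [mulVec_inv, Matrix.mulVec_smul, (hg2 i).2, smul_smul, mul_inv_cancel₀ (hdne i), one_smul]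
    rw [Matrix.mulVec_smul, h5, smul_smul] at h4
    exact h4.fx (mul_ne_zero (hd i) (hdne i))
  · intro i hi
    rw [← cj_cj]
    have h4 := (hab i hi).cj g2
    have h5 : (g2⁻¹).1 *ᵥ (a i • eb o + b i • eb i) =
        a i • (eb o + eb i : Fin n ⊕ Fin n → F) := by
      apply mulVec_inj g2
      rw [mulVec_inv, Matrix.mulVec_smul, Matrix.mulVec_add, (hg2 o).1, (hg2 i).1, hdd]
      simp only [if_pos, if_neg hi]
      rw [smul_add, one_smul, smul_smul, mul_div_cancel₀ _ (ha i hi)]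
    rw [h5] at h4
    exact h4.fx (ha i hi)

end MP7fP
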