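import Pool.Agent.Lib.MP_7f581e_ntP.Gen
import Pool.Agent.Lib.MP_7f581e_ntP.Norm

/-!
Every automorphism of `PSp(2n, F)`, `F` finite, `2 ≤ n` (and `3 ≤ n` in characteristic 2), is
induced by the product of a conjugation by a similitude and a field automorphism.
-/

set_option autoImplicit false

namespace MP7fP

open Matrix

variable {F : Type*} [Field F] {n : ℕ}

theorem pair_eq (h2 : 2 ≤ n) {α : PSp n F ≃* PSp n F} {v w : Fin n ⊕ Fin n → F}
    (hvw : om v w = 1) {a b : F → F}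
    (ha : ∀ t, α (mkS n F (T v t)) = mkS n F (T v (a t)))
    (hb : ∀ t, α (mkS n F (T w t)) = mkS n F (T w (b t))) {t s : F} (ht : t ≠ 0)
    (has : a s ≠ 0) : a t * b t⁻¹ = 1 ∧ b (t⁻¹ ^ 2 * s) = b t⁻¹ ^ 2 * a s := by
  have hv : v ≠ 0 := by
    rintro rfl
    rw [om_zero_left] at hvw
    exact zero_ne_one hvw
  have hwv : om w v = -1 := by rw [om_swap, hvw]
  have hN : ∀ x y : F, (T v x * T w y * T v x).1 *ᵥ v = (1 - x * y) • v + y • w := by
    intro x y
    rw [mul_mulVec, mul_mulVec, T_mulVec, T_mulVec, T_mulVec]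
    simp only [om_self, mul_zero, zero_smul, add_zero, om_add_left, om_smul_left, hvw, hwv]
    module
  have h1 : T v t * T w t⁻¹ * T v t * T v s * (T v t * T w t⁻¹ * T v t)⁻¹ =
      T w (t⁻¹ ^ 2 * s) := by
    rw [conj_T, hN, mul_inv_cancel₀ ht, sub_self, zero_smul, zero_add, T_smul]
  have h3 := congrArg (fun x => α (mkS n F x)) h1
  simp only [map_mul, map_inv, ha, hb] at h3
  have h4 : mkS n F (T ((T v (a t) * T w (b t⁻¹) * T v (a t)).1 *ᵥ v) (a s)) =
      mkS n F (T w (b (t⁻¹ ^ 2 * s))) := by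
    rw [← conj_T, ← h3]
    simp only [map_mul, map_inv]
  have h5 := mkT_eq h2 h4
  obtain ⟨k, hk, hk1, hk2⟩ := T_eq (mulVec_ne_zero _ hv) has h5
  rw [hN] at hk1
  have h6 := congrArg (fun x => om x w) hk1
  simp only [om_add_left, om_smul_left, om_self, hvw, mul_zero, add_zero, mul_one] at h6
  have h7 := congrArg (fun x => om x v) hk1
  simp only [om_add_left, om_smul_left, om_self, hwv, mul_zero, zero_add] at h7
  have h8 : b t⁻¹ = k := by linear_combination -h7
  constructor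
  · linear_combination -h6
  · rw [hk2, h8]

theorem exists_field [Finite F] {S : F → F} (hadd : ∀ s t, S (s + t) = S s + S t)
    (h1 : S 1 ≠ 0) (hsq : ∀ u s, S (u ^ 2 * s) * S 1 ^ 2 = S u ^ 2 * S s) :
    ∃ σ : F ≃+* F, ∀ t, S t = S 1 * σ t := by
  let A : F →+ F := AddMonoidHom.mk' (fun t => S t / S 1) (fun s t => by rw [hadd, add_div])
  have hA : ∀ t, A t = S t / S 1 := fun t => rfl
  have hA1 : A 1 = 1 := by rw [hA, div_self h1]
  have hAsq : ∀ u s, A (u ^ 2 * s) = A u ^ 2 * A s := by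
    intro u s
    rw [hA, hA, hA]
    field_simp
    linear_combination hsq u s
  have hAsq1 : ∀ u, A (u ^ 2) = A u ^ 2 := by
    intro u
    have := hAsq u 1
    rwa [mul_one, hA1, mul_one] at this
  have hmul : ∀ x s, A (x * s) = A x * A s := by
    intro x s
    by_cases h2 : (2 : F) = 0
    · have hch : CharP F 2 := CharTwo.of_one_ne_zero_of_two_eq_zero one_ne_zero h2
      obtain ⟨u, hu⟩ := FiniteField.isSquare_of_char_two (ringChar.eq F 2) x
      rw [hu, ← pow_two, hAsq, hAsq1]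
    · have hx : x = ((x + 1) / 2) ^ 2 - ((x - 1) / 2) ^ 2 := by
        field_simp
        ring
      have h3 : x * s = ((x + 1) / 2) ^ 2 * s - ((x - 1) / 2) ^ 2 * s := by
        rw [← sub_mul, ← hx]
      rw [h3, map_sub, hAsq, hAsq, ← sub_mul]
      congr 1
      conv_rhs => rw [hx]
      rw [map_sub, hAsq1, hAsq1]
  let σr : F →+* F :=
    { toFun := A
      map_one' := hA1
      map_mul' := hmul
      map_zero' := map_zero A
      map_add' := map_add A }
  have hbij : Function.Bijective σr := by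
    have hinj : Function.Injective σr := σr.injective
    exact ⟨hinj, Finite.surjective_of_injective hinj⟩
  refine ⟨RingEquiv.ofBijective σr hbij, fun t => ?_⟩
  change S t = S 1 * (S t / S 1)
  rw [mul_div_cancel₀ _ h1]

/-- The group of similitudes. -/
def GSp (n : ℕ) (F : Type*) [Field F] : Subgroup (GL (Fin n ⊕ Fin n) F) where
  carrier := {g | ∃ c : F, c ≠ 0 ∧ ∀ x y, om (g.1 *ᵥ x) (g.1 *ᵥ y) = c * om x y}
  one_mem' := ⟨1, one_ne_zero, fun x y => by
    rw [Units.val_one, Matrix.one_mulVec, Matrix.one_mulVec, one_mul]⟩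
  mul_mem' := by
    rintro g h ⟨c, hc, hg⟩ ⟨d, hd, hh⟩
    refine ⟨c * d, mul_ne_zero hc hd, fun x y => ?_⟩
    rw [Units.val_mul, ← Matrix.mulVec_mulVec, ← Matrix.mulVec_mulVec, hg, hh, mul_assoc]
  inv_mem' := by
    rintro g ⟨c, hc, hg⟩
    refine ⟨c⁻¹, inv_ne_zero hc, fun x y => ?_⟩
    have h1 : ∀ x, g.1 *ᵥ ((g⁻¹).1 *ᵥ x) = x := by
      intro x
      rw [Matrix.mulVec_mulVec, Units.mul_inv, Matrix.one_mulVec]
    have h2 := hg ((g⁻¹).1 *ᵥ x) ((g⁻¹).1 *ᵥ y)
    rw [h1, h1] at h2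
    rw [h2, inv_mul_cancel_left₀ hc]

/-- Conjugation by a similitude. -/
def conjG (g : GSp n F) : Sp n F →* Sp n F where
  toFun A := ⟨g.1.1 * A.1 * (g.1⁻¹).1, by
    obtain ⟨c, hc, hg⟩ := g.2
    obtain ⟨d, hd, hg'⟩ := (g⁻¹).2
    apply mem_of_om
    intro x y
    have h1 : c * d = 1 ∨ ∀ x y : Fin n ⊕ Fin n → F, om x y = 0 := by
      by_cases h0 : ∀ x y : Fin n ⊕ Fin n → F, om x y = 0
      · exact Or.inr h0
      · left
        push Not at h0
        obtain ⟨x, y, hxy⟩ := h0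
        have h2 := hg ((g.1⁻¹).1 *ᵥ x) ((g.1⁻¹).1 *ᵥ y)
        have h3 : om ((g.1⁻¹).1 *ᵥ x) ((g.1⁻¹).1 *ᵥ y) = d * om x y := hg' x y
        rw [h3, Matrix.mulVec_mulVec, Matrix.mulVec_mulVec, Units.mul_inv, Matrix.one_mulVec,
          Matrix.one_mulVec, ← mul_assoc] at h2
        exact (mul_eq_right₀ hxy).mp h2.symm
    rcases h1 with h1 | h1
    · have h3 : om ((g.1⁻¹).1 *ᵥ x) ((g.1⁻¹).1 *ᵥ y) = d * om x y := hg' x y
      rw [← Matrix.mulVec_mulVec, ← Matrix.mulVec_mulVec, ← Matrix.mulVec_mulVec,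
        ← Matrix.mulVec_mulVec, hg, om_mulVec A.2, h3, ← mul_assoc, h1, one_mul]
    · rw [h1, h1]⟩
  map_one' := by
    apply Subtype.ext
    change g.1.1 * 1 * (g.1⁻¹).1 = 1
    rw [mul_one, Units.mul_inv]
  map_mul' A B := by
    apply Subtype.ext
    change g.1.1 * (A.1 * B.1) * (g.1⁻¹).1 =
      (g.1.1 * A.1 * (g.1⁻¹).1) * (g.1.1 * B.1 * (g.1⁻¹).1)
    have : (g.1⁻¹).1 * g.1.1 = 1 := Units.inv_mul g.1
    calc g.1.1 * (A.1 * B.1) * (g.1⁻¹).1 = g.1.1 * A.1 * 1 * (B.1 * (g.1⁻¹).1) := by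
          simp only [mul_assoc, mul_one]
      _ = _ := by rw [← this]; simp only [mul_assoc]

theorem conjG_coe (g : GSp n F) (A : Sp n F) :
    (conjG g A).1 = g.1.1 * A.1 * (g.1⁻¹).1 := rfl

theorem conjG_mul (g h : GSp n F) (A : Sp n F) : conjG (g * h) A = conjG g (conjG h A) := by
  apply Subtype.ext
  change (g.1 * h.1).1 * A.1 * ((g.1 * h.1)⁻¹).1 =
    g.1.1 * (h.1.1 * A.1 * (h.1⁻¹).1) * (g.1⁻¹).1
  rw [_root_.mul_inv_rev, Units.val_mul, Units.val_mul]
  simp only [mul_assoc]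

/-- Conjugation of a transvection by a similitude. -/
theorem conjG_T (g : GSp n F) {c : F} (hc : c ≠ 0)
    (hg : ∀ x y, om (g.1.1 *ᵥ x) (g.1.1 *ᵥ y) = c * om x y) (v : Fin n ⊕ Fin n → F) (t : F) :
    conjG g (T v t) = T (g.1.1 *ᵥ v) (c⁻¹ * t) := by
  apply sp_ext
  intro x
  have h1 : ∀ x, g.1.1 *ᵥ ((g.1⁻¹).1 *ᵥ x) = x := by
    intro x
    rw [Matrix.mulVec_mulVec, Units.mul_inv, Matrix.one_mulVec]
  have h2 : om x (g.1.1 *ᵥ v) = c * om ((g.1⁻¹).1 *ᵥ x) v := by
    rw [← hg, h1]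
  rw [conjG_coe, ← Matrix.mulVec_mulVec, ← Matrix.mulVec_mulVec, T_mulVec, T_mulVec,
    Matrix.mulVec_add, h1, Matrix.mulVec_smul, h2]
  congr 2
  field_simp

/-- The symplectic group as a group of similitudes. -/
def spG : Sp n F →* GSp n F where
  toFun A := ⟨⟨A.1, (A⁻¹).1, congrArg Subtype.val (mul_inv_cancel A),
    congrArg Subtype.val (inv_mul_cancel A)⟩, 1, one_ne_zero, fun x y => by
      rw [one_mul]; exact om_mulVec A.2 x y⟩
  map_one' := Subtype.ext (Units.ext rfl)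
  map_mul' A B := Subtype.ext (Units.ext rfl)

theorem conjG_spG (g A : Sp n F) : conjG (spG g) A = g * A * g⁻¹ := rfl

/-- Field automorphisms. -/
def mapS (σ : F →+* F) : Sp n F →* Sp n F where
  toFun A := ⟨A.1.map σ, by
    have h1 := SymplecticGroup.mem_iff.mp A.2
    rw [SymplecticGroup.mem_iff]
    have h2 : (J (Fin n) F).map σ = J (Fin n) F := by
      rw [J, Matrix.fromBlocks_map, Matrix.map_zero _ (map_zero σ),
        Matrix.map_one _ (map_zero σ) (map_one σ)]
      congr 1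
      ext i j
      simp [Matrix.one_apply, apply_ite σ]
    have h3 := congrArg (fun M => Matrix.map M σ) h1
    simp only [Matrix.map_mul, h2] at h3
    rw [← Matrix.transpose_map]
    exact h3⟩
  map_one' := Subtype.ext (Matrix.map_one _ (map_zero σ) (map_one σ))
  map_mul' A B := Subtype.ext Matrix.map_mul

theorem mapS_coe (σ : F →+* F) (A : Sp n F) : (mapS σ A).1 = A.1.map σ := rfl

theorem mapS_T (σ : F →+* F) (v : Fin n ⊕ Fin n → F) (t : F) :
    mapS σ (T v t) = T (fun i => σ (v i)) (σ t) := by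
  apply Subtype.ext
  change (1 + t • vecMulVec v (dv v)).map σ =
    1 + σ t • vecMulVec (fun i => σ (v i)) (dv (fun i => σ (v i)))
  ext i j
  rw [Matrix.map_apply, Matrix.add_apply, Matrix.add_apply, Matrix.smul_apply, Matrix.smul_apply,
    vecMulVec_apply, vecMulVec_apply, map_add, smul_eq_mul, smul_eq_mul, map_mul, map_mul,
    Matrix.one_apply]
  congr 1
  · split_ifs
    · exact map_one σ
    · exact map_zero σ
  · congr 2
    rcases j with j | j
    · rfl
    · exact map_neg σ _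

theorem map_eb (σ : F →+* F) (i : Fin n) : (fun j => σ ((eb i : Fin n ⊕ Fin n → F) j)) = eb i := by
  funext j
  rw [eb, Pi.single_apply]
  split_ifs
  · exact map_one σ
  · exact map_zero σ

theorem map_fb (σ : F →+* F) (i : Fin n) : (fun j => σ ((fb i : Fin n ⊕ Fin n → F) j)) = fb i := by
  funext j
  rw [fb, Pi.single_apply]
  split_ifs
  · exact map_one σ
  · exact map_zero σ

/-- The similitude `diag(1, c⁻¹)`. -/
theorem exists_delta {c : F} (hc : c ≠ 0) : ∃ δ : GSp n F,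
    (∀ x y, om (δ.1.1 *ᵥ x) (δ.1.1 *ᵥ y) = c⁻¹ * om x y) ∧ (∀ i, δ.1.1 *ᵥ eb i = eb i) ∧
    ∀ i, δ.1.1 *ᵥ fb i = c⁻¹ • fb i := by
  have hx : ∀ (d : F) (x : Fin n ⊕ Fin n → F) (a : Fin n ⊕ Fin n),
      ((Matrix.diagonal (Sum.elim (fun _ : Fin n => (1 : F)) (fun _ => d)) :
        Matrix (Fin n ⊕ Fin n) (Fin n ⊕ Fin n) F) *ᵥ x) a =
      Sum.elim (fun _ : Fin n => (1 : F)) (fun _ => d) a * x a := by
    intro d x a
    rw [Matrix.mulVec_diagonal]
  have hmul : ∀ d d' : F, d * d' = 1 →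
      (Matrix.diagonal (Sum.elim (fun _ : Fin n => (1 : F)) (fun _ : Fin n => d))) *
      Matrix.diagonal (Sum.elim (fun _ : Fin n => (1 : F)) (fun _ : Fin n => d')) = 1 := by
    intro d d' hd
    rw [Matrix.diagonal_mul_diagonal, ← Matrix.diagonal_one]
    congr 1
    funext a
    rcases a with a | a
    · simp
    · simpa using hd
  have hom : ∀ x y, om
      ((Matrix.diagonal (Sum.elim (fun _ : Fin n => (1 : F)) (fun _ : Fin n => c⁻¹))) *ᵥ x)
      ((Matrix.diagonal (Sum.elim (fun _ : Fin n => (1 : F)) (fun _ : Fin n => c⁻¹))) *ᵥ y) =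
      c⁻¹ * om x y := by
    intro x y
    rw [om_eq, om_eq, Finset.mul_sum]
    apply Finset.sum_congr rfl
    intro i _
    rw [hx, hx, hx, hx, Sum.elim_inl, Sum.elim_inr]
    ring
  refine ⟨⟨⟨_, _, hmul c⁻¹ c (inv_mul_cancel₀ hc), hmul c c⁻¹ (mul_inv_cancel₀ hc)⟩,
    c⁻¹, inv_ne_zero hc, hom⟩, hom, fun i => ?_, fun i => ?_⟩
  · funext a
    change ((Matrix.diagonal (Sum.elim (fun _ : Fin n => (1 : F)) (fun _ : Fin n => c⁻¹))) *ᵥ
      eb i) a = eb i a
    rw [hx]
    rcases a with a | a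
    · rw [Sum.elim_inl, one_mul]
    · rw [eb_inr, mul_zero]
  · funext a
    change ((Matrix.diagonal (Sum.elim (fun _ : Fin n => (1 : F)) (fun _ : Fin n => c⁻¹))) *ᵥ
      fb i) a = (c⁻¹ • fb i) a
    rw [hx, Pi.smul_apply, smul_eq_mul]
    rcases a with a | a
    · rw [fb_inl, mul_zero, mul_zero]
    · rw [Sum.elim_inr]

/-- **Automorphisms of the projective symplectic groups.** -/
theorem aut_psp [Finite F] (h2 : 2 ≤ n) (h3 : (2 : F) = 0 → 3 ≤ n) (α : PSp n F ≃* PSp n F) :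
    ∃ (g : GSp n F) (σ : F ≃+* F), ∀ A : Sp n F,
      α (mkS n F A) = mkS n F (conjG g (mapS (σ : F →+* F) A)) := by
  have hn : 0 < n := by omega
  set o : Fin n := ⟨0, hn⟩ with ho
  obtain ⟨g0, S, hadd, hS1, he, hf, hv⟩ := exists_norm h2 h3 o α
  choose ce hce0 hce using he
  choose cf hcf0 hcf using hf
  choose! cv hcv0 hcv using hv
  have hS0 : S 0 = 0 := by
    have := hadd 0 0
    rw [add_zero] at this
    exact left_eq_add.mp this
  -- the pairs
  have hef : ∀ i, ce i * S 1 * (cf i * S 1) = 1 := by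
    intro i
    have := (pair_eq h2 (show om (eb i : Fin n ⊕ Fin n → F) (fb i) = 1 by
      rw [om_eb_fb, if_pos rfl]) (hce i) (hcf i) (one_ne_zero (α := F)) (s := 1)
      (mul_ne_zero (hce0 i) hS1)).1
    rwa [inv_one] at this
  have hvi : ∀ i, i ≠ o → cv i * S 1 * (cf i * S 1) = 1 := by
    intro i hi
    have := (pair_eq h2 (show om (eb o + eb i : Fin n ⊕ Fin n → F) (fb i) = 1 by
      rw [om_add_left, om_eb_fb, om_eb_fb, if_pos rfl, if_neg hi.symm, zero_add]) (hcv i hi) (hcf i)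
      (one_ne_zero (α := F)) (s := 1) (mul_ne_zero (hcv0 i hi) hS1)).1
    rwa [inv_one] at this
  have hvo : ∀ i, i ≠ o → cv i * S 1 * (cf o * S 1) = 1 := by
    intro i hi
    have := (pair_eq h2 (show om (eb o + eb i : Fin n ⊕ Fin n → F) (fb o) = 1 by
      rw [om_add_left, om_eb_fb, om_eb_fb, if_pos rfl, if_neg hi, add_zero]) (hcv i hi) (hcf o)
      (one_ne_zero (α := F)) (s := 1) (mul_ne_zero (hcv0 i hi) hS1)).1
    rwa [inv_one] at this
  have hcan : ∀ {a b c : F}, a * S 1 * (c * S 1) = 1 → b * S 1 * (c * S 1) = 1 → a = b := by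
    intro a b c hac hbc
    have h4 : c * S 1 ≠ 0 := right_ne_zero_of_mul (by rw [hac]; exact one_ne_zero)
    exact mul_right_cancel₀ hS1 (mul_right_cancel₀ h4 (hac.trans hbc.symm))
  have hceq : ∀ i, ce i = ce o := by
    intro i
    by_cases hi : i = o
    · rw [hi]
    · exact (hcan (hef i) (hvi i hi)).trans (hcan (hvo i hi) (hef o))
  have hcveq : ∀ i, i ≠ o → cv i = ce o := fun i hi => hcan (hvo i hi) (hef o)
  -- the field automorphism
  have hsq : ∀ u s, S (u ^ 2 * s) * S 1 ^ 2 = S u ^ 2 * S s := by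
    intro u s
    by_cases hs : s = 0
    · rw [hs, mul_zero, hS0, zero_mul, mul_zero]
    by_cases hu : u = 0
    · rw [hu, zero_pow two_ne_zero, zero_mul, hS0, zero_pow two_ne_zero, zero_mul, zero_mul]
    have hSs : S s ≠ 0 := by
      -- from the pair relation
      have h4 := (pair_eq h2 (show om (eb o : Fin n ⊕ Fin n → F) (fb o) = 1 by
        rw [om_eb_fb, if_pos rfl]) (hce o) (hcf o) hs (s := 1)
        (mul_ne_zero (hce0 o) hS1)).1
      intro h0
      rw [h0, mul_zero, zero_mul] at h4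
      exact zero_ne_one h4
    have h4 := (pair_eq h2 (show om (eb o : Fin n ⊕ Fin n → F) (fb o) = 1 by
      rw [om_eb_fb, if_pos rfl]) (hce o) (hcf o) (inv_ne_zero hu) (s := s)
      (mul_ne_zero (hce0 o) hSs)).2
    rw [inv_inv] at h4
    have h5 := hef o
    apply mul_left_cancel₀ (hcf0 o)
    linear_combination S 1 ^ 2 * h4 + cf o * S u ^ 2 * S s * h5
  obtain ⟨σ, hσ⟩ := exists_field hadd hS1 hsq
  set c : F := ce o * S 1 with hc
  have hc0 : c ≠ 0 := mul_ne_zero (hce0 o) hS1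
  have hcf' : ∀ i, cf i * S 1 = c⁻¹ := by
    intro i
    have := hef i
    rw [hceq i] at this
    exact eq_inv_of_mul_eq_one_right this
  obtain ⟨δ, hδ, hδe, hδf⟩ := exists_delta (n := n) hc0
  -- comparison on generators
  let H : Subgroup (Sp n F) := MonoidHom.eqLocus
    (((cj g0 α : PSp n F ≃* PSp n F) : PSp n F →* PSp n F).comp (mkS n F))
    ((mkS n F).comp ((conjG δ).comp (mapS (σ : F →+* F))))
  have hT : ∀ v t, conjG δ (T v t) = T (δ.1.1 *ᵥ v) (c * t) := by
    intro v t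
    rw [conjG_T δ (inv_ne_zero hc0) hδ, inv_inv]
  have hH : H = ⊤ := by
    apply gen (o := o)
    · intro i t
      change cj g0 α (mkS n F (T (eb i) t)) = mkS n F (conjG δ (mapS (σ : F →+* F) (T (eb i) t)))
      rw [hce, mapS_T, map_eb, hT, hδe, hσ, hceq i]
      congr 2
      change ce o * (S 1 * σ t) = c * σ t
      rw [hc]; ring
    · intro i t
      change cj g0 α (mkS n F (T (fb i) t)) = mkS n F (conjG δ (mapS (σ : F →+* F) (T (fb i) t)))
      rw [hcf, mapS_T, map_fb, hT, hδf, hσ, T_smul]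
      congr 2
      change cf i * (S 1 * σ t) = c⁻¹ ^ 2 * (c * σ t)
      rw [← mul_assoc, hcf' i]
      field_simp
    · intro i hi t
      change cj g0 α (mkS n F (T (eb o + eb i) t)) =
        mkS n F (conjG δ (mapS (σ : F →+* F) (T (eb o + eb i) t)))
      have h4 : (fun j => (σ : F →+* F) ((eb o + eb i : Fin n ⊕ Fin n → F) j)) = eb o + eb i := by
        funext j
        have h5 := congrFun (map_eb (σ : F →+* F) o) j
        have h6 := congrFun (map_eb (σ : F →+* F) i) j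
        simp only [Pi.add_apply, map_add] at h5 h6 ⊢
        rw [h5, h6]
      rw [hcv i hi, mapS_T, h4, hT, Matrix.mulVec_add, hδe, hδe, hσ, hcveq i hi]
      congr 2
      change ce o * (S 1 * σ t) = c * σ t
      rw [hc]; ring
  refine ⟨spG g0 * δ, σ, fun A => ?_⟩
  have hA : cj g0 α (mkS n F A) = mkS n F (conjG δ (mapS (σ : F →+* F) A)) := by
    have : A ∈ H := hH ▸ Subgroup.mem_top A
    exact this
  rw [conjG_mul, conjG_spG, map_mul, map_mul, ← hA, cj_apply, map_inv]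
  group

end MP7fP
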