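import Mathlib

/-!
Symplectic transvections.
-/

set_option autoImplicit false

namespace MP7fP

open Matrix

variable {F : Type*} [Field F] {n : ℕ}

/-- The symplectic group. -/
abbrev Sp (n : ℕ) (F : Type*) [Field F] := symplecticGroup (Fin n) F

/-- The functional `om · y`. -/
def dv (y : Fin n ⊕ Fin n → F) : Fin n ⊕ Fin n → F :=
  Sum.elim (fun i => y (Sum.inr i)) (fun i => -y (Sum.inl i))

/-- The symplectic form. -/
def om (x y : Fin n ⊕ Fin n → F) : F := dv y ⬝ᵥ x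

theorem om_eq (x y : Fin n ⊕ Fin n → F) :
    om x y = ∑ i, (x (Sum.inl i) * y (Sum.inr i) - x (Sum.inr i) * y (Sum.inl i)) := by
  rw [om, dotProduct, Fintype.sum_sum_type, ← Finset.sum_add_distrib]
  apply Finset.sum_congr rfl
  intro i _
  simp only [dv, Sum.elim_inl, Sum.elim_inr]
  ring

theorem om_swap (x y : Fin n ⊕ Fin n → F) : om x y = -om y x := by
  rw [om_eq, om_eq, ← Finset.sum_neg_distrib]
  apply Finset.sum_congr rfl
  intro i _
  ring

theorem om_self (x : Fin n ⊕ Fin n → F) : om x x = 0 := by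
  rw [om_eq]
  apply Finset.sum_eq_zero
  intro i _
  ring

theorem om_add_left (x x' y : Fin n ⊕ Fin n → F) : om (x + x') y = om x y + om x' y := by
  rw [om, dotProduct_add]
  rfl

theorem om_sub_left (x x' y : Fin n ⊕ Fin n → F) : om (x - x') y = om x y - om x' y := by
  rw [om, dotProduct_sub]
  rfl

theorem om_smul_left (c : F) (x y : Fin n ⊕ Fin n → F) : om (c • x) y = c * om x y := by
  rw [om, dotProduct_smul]
  rfl

theorem om_neg_left (x y : Fin n ⊕ Fin n → F) : om (-x) y = -om x y := by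
  rw [om, dotProduct_neg]
  rfl

theorem om_add_right (x y y' : Fin n ⊕ Fin n → F) : om x (y + y') = om x y + om x y' := by
  rw [om_swap, om_add_left, om_swap y x, om_swap y' x]
  ring

theorem om_sub_right (x y y' : Fin n ⊕ Fin n → F) : om x (y - y') = om x y - om x y' := by
  rw [om_swap, om_sub_left, om_swap y x, om_swap y' x]
  ring

theorem om_smul_right (c : F) (x y : Fin n ⊕ Fin n → F) : om x (c • y) = c * om x y := by
  rw [om_swap, om_smul_left, om_swap y x]
  ring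

theorem om_neg_right (x y : Fin n ⊕ Fin n → F) : om x (-y) = -om x y := by
  rw [om_swap, om_neg_left, neg_neg, om_swap y x]

theorem om_zero_left (y : Fin n ⊕ Fin n → F) : om 0 y = 0 := by
  rw [om, dotProduct_zero]

theorem om_zero_right (y : Fin n ⊕ Fin n → F) : om y 0 = 0 := by
  rw [om_swap, om_zero_left, neg_zero]

/-- Basis vectors. -/
def eb (i : Fin n) : Fin n ⊕ Fin n → F := Pi.single (Sum.inl i) 1

/-- Basis vectors. -/
def fb (i : Fin n) : Fin n ⊕ Fin n → F := Pi.single (Sum.inr i) 1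

theorem om_eb (i : Fin n) (y : Fin n ⊕ Fin n → F) : om (eb i) y = y (Sum.inr i) := by
  rw [om, eb, dotProduct_single_one]
  rfl

theorem om_fb (i : Fin n) (y : Fin n ⊕ Fin n → F) : om (fb i) y = -y (Sum.inl i) := by
  rw [om, fb, dotProduct_single_one]
  rfl

theorem om_eb_right (i : Fin n) (x : Fin n ⊕ Fin n → F) : om x (eb i) = -x (Sum.inr i) := by
  rw [om_swap, om_eb]

theorem om_fb_right (i : Fin n) (x : Fin n ⊕ Fin n → F) : om x (fb i) = x (Sum.inl i) := by
  rw [om_swap, om_fb, neg_neg]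

theorem eb_ne_zero (i : Fin n) : (eb i : Fin n ⊕ Fin n → F) ≠ 0 := by
  intro h
  have := congrFun h (Sum.inl i)
  rw [eb, Pi.single_eq_same] at this
  exact one_ne_zero this

theorem fb_ne_zero (i : Fin n) : (fb i : Fin n ⊕ Fin n → F) ≠ 0 := by
  intro h
  have := congrFun h (Sum.inr i)
  rw [fb, Pi.single_eq_same] at this
  exact one_ne_zero this

theorem om_eb_fb (i j : Fin n) : om (eb i : Fin n ⊕ Fin n → F) (fb j) = if i = j then 1 else 0 := by
  rw [om_eb, fb, Pi.single_apply]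
  simp

theorem om_eb_eb (i j : Fin n) : om (eb i : Fin n ⊕ Fin n → F) (eb j) = 0 := by
  rw [om_eb, eb, Pi.single_apply]
  simp

theorem om_fb_fb (i j : Fin n) : om (fb i : Fin n ⊕ Fin n → F) (fb j) = 0 := by
  rw [om_fb, fb, Pi.single_apply]
  simp

theorem om_fb_eb (i j : Fin n) : om (fb i : Fin n ⊕ Fin n → F) (eb j) = if i = j then -1 else 0 := by
  rw [om_fb, eb, Pi.single_apply]
  by_cases h : i = j <;> simp [h]

/-- The form is non degenerate. -/
theorem exists_om_ne {v : Fin n ⊕ Fin n → F} (hv : v ≠ 0) : ∃ u, om v u ≠ 0 := by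
  obtain ⟨i, hi⟩ : ∃ i, v i ≠ 0 := by
    by_contra hcon
    push Not at hcon
    exact hv (funext hcon)
  rcases i with i | i
  · exact ⟨fb i, by rwa [om_fb_right]⟩
  · exact ⟨eb i, by rw [om_eb_right]; exact neg_ne_zero.mpr hi⟩

theorem exists_om_ne₂ {v w : Fin n ⊕ Fin n → F} (hv : v ≠ 0) (hw : w ≠ 0) :
    ∃ u, om v u ≠ 0 ∧ om w u ≠ 0 := by
  obtain ⟨a, ha⟩ := exists_om_ne hv
  obtain ⟨b, hb⟩ := exists_om_ne hw
  by_cases h1 : om w a = 0
  · by_cases h2 : om v b = 0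
    · exact ⟨a + b, by rwa [om_add_right, h2, add_zero], by rwa [om_add_right, h1, zero_add]⟩
    · exact ⟨b, h2, hb⟩
  · exact ⟨a, ha, h1⟩

theorem om_eq_J (x y : Fin n ⊕ Fin n → F) : om x y = -(x ⬝ᵥ (J (Fin n) F *ᵥ y)) := by
  have h1 : dv y = -(J (Fin n) F *ᵥ y) := by
    funext a
    rcases a with i | i
    · simp [dv, J, Matrix.mulVec, dotProduct, Fintype.sum_sum_type, Matrix.one_apply]
    · simp [dv, J, Matrix.mulVec, dotProduct, Fintype.sum_sum_type, Matrix.one_apply]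
  rw [om, h1, neg_dotProduct, dotProduct_comm]

/-- Symplectic matrices preserve the form. -/
theorem om_mulVec {A : Matrix (Fin n ⊕ Fin n) (Fin n ⊕ Fin n) F}
    (hA : A ∈ symplecticGroup (Fin n) F) (x y : Fin n ⊕ Fin n → F) :
    om (A *ᵥ x) (A *ᵥ y) = om x y := by
  rw [SymplecticGroup.mem_iff'] at hA
  rw [om_eq_J, om_eq_J, Matrix.mulVec_mulVec, ← Matrix.vecMul_transpose, ← Matrix.dotProduct_mulVec,
    Matrix.mulVec_mulVec, ← mul_assoc, hA]

/-- A matrix which preserves the form is symplectic. -/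
theorem mem_of_om {A : Matrix (Fin n ⊕ Fin n) (Fin n ⊕ Fin n) F}
    (h : ∀ x y, om (A *ᵥ x) (A *ᵥ y) = om x y) : A ∈ symplecticGroup (Fin n) F := by
  rw [SymplecticGroup.mem_iff']
  ext a b
  have h1 := h (Pi.single a 1) (Pi.single b 1)
  rw [om_eq_J, om_eq_J, Matrix.mulVec_mulVec, ← Matrix.vecMul_transpose,
    ← Matrix.dotProduct_mulVec, Matrix.mulVec_mulVec, ← mul_assoc, neg_inj] at h1
  rw [Matrix.mulVec_single_one, Matrix.mulVec_single_one, single_one_dotProduct,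
    single_one_dotProduct] at h1
  exact h1

theorem sp_ext {g h : Sp n F} (H : ∀ x, g.1 *ᵥ x = h.1 *ᵥ x) : g = h :=
  Subtype.ext (Matrix.mulVec_injective (funext H))

theorem mul_mulVec (g h : Sp n F) (x : Fin n ⊕ Fin n → F) :
    (g * h).1 *ᵥ x = g.1 *ᵥ (h.1 *ᵥ x) := by
  rw [Matrix.mulVec_mulVec]
  rfl

theorem one_mulVec' (x : Fin n ⊕ Fin n → F) : (1 : Sp n F).1 *ᵥ x = x := Matrix.one_mulVec x

theorem inv_mulVec (g : Sp n F) (x : Fin n ⊕ Fin n → F) : (g⁻¹).1 *ᵥ (g.1 *ᵥ x) = x := by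
  rw [← mul_mulVec, inv_mul_cancel, one_mulVec']

theorem mulVec_inv (g : Sp n F) (x : Fin n ⊕ Fin n → F) : g.1 *ᵥ ((g⁻¹).1 *ᵥ x) = x := by
  rw [← mul_mulVec, mul_inv_cancel, one_mulVec']

theorem mulVec_inj (g : Sp n F) {x y : Fin n ⊕ Fin n → F} (h : g.1 *ᵥ x = g.1 *ᵥ y) : x = y := by
  rw [← inv_mulVec g x, h, inv_mulVec]

theorem mulVec_ne_zero (g : Sp n F) {x : Fin n ⊕ Fin n → F} (h : x ≠ 0) : g.1 *ᵥ x ≠ 0 := by
  intro h0
  apply h
  apply mulVec_inj g
  rw [h0, Matrix.mulVec_zero]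

/-- The matrix of a transvection. -/
def tm (v : Fin n ⊕ Fin n → F) (t : F) : Matrix (Fin n ⊕ Fin n) (Fin n ⊕ Fin n) F :=
  1 + t • vecMulVec v (dv v)

theorem tm_mulVec (v : Fin n ⊕ Fin n → F) (t : F) (x : Fin n ⊕ Fin n → F) :
    tm v t *ᵥ x = x + (t * om x v) • v := by
  rw [tm, Matrix.add_mulVec, Matrix.one_mulVec, Matrix.smul_mulVec, vecMulVec_mulVec, mul_smul]
  congr 2
  ext i
  simp [om, mul_comm]

/-- Symplectic transvections. -/
def T (v : Fin n ⊕ Fin n → F) (t : F) : Sp n F := ⟨tm v t, by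
  apply mem_of_om
  intro x y
  rw [tm_mulVec, tm_mulVec, om_add_left, om_add_right, om_add_right, om_smul_left, om_smul_left,
    om_smul_right, om_smul_right, om_self, om_swap v y]
  ring⟩

theorem T_mulVec (v : Fin n ⊕ Fin n → F) (t : F) (x : Fin n ⊕ Fin n → F) :
    (T v t).1 *ᵥ x = x + (t * om x v) • v := tm_mulVec v t x

theorem T_zero (v : Fin n ⊕ Fin n → F) : T v 0 = 1 := by
  apply sp_ext
  intro x
  rw [T_mulVec, zero_mul, zero_smul, add_zero, one_mulVec']

theorem T_add (v : Fin n ⊕ Fin n → F) (s t : F) : T v (s + t) = T v s * T v t := by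
  apply sp_ext
  intro x
  rw [mul_mulVec, T_mulVec, T_mulVec, T_mulVec, om_add_left, om_smul_left, om_self, mul_zero,
    add_zero, add_mul, add_smul]
  abel

theorem T_neg (v : Fin n ⊕ Fin n → F) (t : F) : T v (-t) = (T v t)⁻¹ := by
  apply eq_inv_of_mul_eq_one_left
  rw [← T_add, neg_add_cancel, T_zero]

theorem T_smul (c : F) (v : Fin n ⊕ Fin n → F) (t : F) : T (c • v) t = T v (c ^ 2 * t) := by
  apply sp_ext
  intro x
  rw [T_mulVec, T_mulVec, om_smul_right, smul_smul]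
  congr 2
  ring

theorem conj_T (g : Sp n F) (v : Fin n ⊕ Fin n → F) (t : F) :
    g * T v t * g⁻¹ = T (g.1 *ᵥ v) t := by
  rw [mul_inv_eq_iff_eq_mul]
  apply sp_ext
  intro x
  rw [mul_mulVec, mul_mulVec, T_mulVec, T_mulVec, om_mulVec g.2, Matrix.mulVec_add,
    Matrix.mulVec_smul]

theorem T_comm {v w : Fin n ⊕ Fin n → F} (h : om v w = 0) (s t : F) :
    T v s * T w t = T w t * T v s := by
  have h1 := conj_T (T v s) w t
  rw [T_mulVec, om_swap w v, h, neg_zero, mul_zero, zero_smul, add_zero] at h1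
  exact mul_inv_eq_iff_eq_mul.mp h1

/-- A transvection determines its centre and its parameter. -/
theorem T_eq {v w : Fin n ⊕ Fin n → F} (hv : v ≠ 0) {s t : F} (hs : s ≠ 0)
    (h : T v s = T w t) : ∃ c : F, c ≠ 0 ∧ v = c • w ∧ t = c ^ 2 * s := by
  obtain ⟨u, hu⟩ := exists_om_ne hv
  have h1 : ∀ x, (s * om x v) • v = (t * om x w) • w := by
    intro x
    have h2 : (T v s).1 *ᵥ x = (T w t).1 *ᵥ x := by rw [h]
    rw [T_mulVec, T_mulVec] at h2
    exact add_left_cancel h2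
  have hu' : om u v ≠ 0 := by rw [om_swap]; exact neg_ne_zero.mpr hu
  have h2 : v = ((s * om u v)⁻¹ * (t * om u w)) • w := by
    rw [mul_smul, ← h1, smul_smul, inv_mul_cancel₀ (mul_ne_zero hs hu'), one_smul]
  set c := (s * om u v)⁻¹ * (t * om u w) with hc
  have hc0 : c ≠ 0 := by
    intro h0
    rw [h0, zero_smul] at h2
    exact hv h2
  refine ⟨c, hc0, h2, ?_⟩
  have hw : w ≠ 0 := by
    rintro rfl
    rw [smul_zero] at h2
    exact hv h2
  have h3 := h1 u
  rw [h2, om_smul_right, smul_smul] at h3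
  have h4 : (s * (c * om u w) * c - t * om u w) • w = 0 := by
    rw [sub_smul, h3, sub_self]
  have h5 := (smul_eq_zero.mp h4).resolve_right hw
  have h6 : om u w ≠ 0 := by
    intro h0
    rw [h2, om_smul_right, h0, mul_zero] at hu'
    exact hu' rfl
  apply mul_right_cancel₀ h6
  linear_combination -h5

theorem T_ne_one {v : Fin n ⊕ Fin n → F} (hv : v ≠ 0) {t : F} (ht : t ≠ 0) : T v t ≠ 1 := by
  intro h
  rw [← T_zero v] at h
  obtain ⟨c, hc0, -, hc⟩ := T_eq hv ht h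
  exact mul_ne_zero (pow_ne_zero 2 hc0) ht hc.symm

/-- The symplectic group acts transitively on nonzero vectors. -/
theorem exists_trans {v w : Fin n ⊕ Fin n → F} (hv : v ≠ 0) (hw : w ≠ 0) :
    ∃ g : Sp n F, g.1 *ᵥ v = w := by
  have h1 : ∀ {v w : Fin n ⊕ Fin n → F}, om v w ≠ 0 →
      (T (v - w) (om v w)⁻¹).1 *ᵥ v = w := by
    intro v w h
    rw [T_mulVec, om_sub_right, om_self, zero_sub, mul_neg, inv_mul_cancel₀ h, neg_smul, one_smul]
    abel
  obtain ⟨u, hu1, hu2⟩ := exists_om_ne₂ hv hw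
  have hu3 : om u w ≠ 0 := by rw [om_swap]; exact neg_ne_zero.mpr hu2
  refine ⟨T (u - w) (om u w)⁻¹ * T (v - u) (om v u)⁻¹, ?_⟩
  rw [mul_mulVec, h1 hu1, h1 hu3]

/-- Central elements are scalar. -/
theorem scalar_of_center {g : Sp n F} (hg : g ∈ Subgroup.center (Sp n F)) :
    ∃ c : F, g.1 = c • (1 : Matrix (Fin n ⊕ Fin n) (Fin n ⊕ Fin n) F) := by
  have h1 : ∀ v : Fin n ⊕ Fin n → F, ∃ c : F, g.1 *ᵥ v = c • v := by
    intro v
    by_cases hv : v = 0
    · exact ⟨1, by rw [hv, Matrix.mulVec_zero, smul_zero]⟩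
    · have h2 := conj_T g v 1
      have h3 : g * T v 1 * g⁻¹ = T v 1 := by
        rw [← Subgroup.mem_center_iff.mp hg (T v 1), mul_inv_cancel_right]
      rw [h3] at h2
      obtain ⟨c, -, hc, -⟩ := T_eq (mulVec_ne_zero g hv) one_ne_zero h2.symm
      exact ⟨c, hc⟩
  obtain ⟨c, hc⟩ := LinearMap.exists_eq_smul_id_of_forall_notLinearIndependent
    (f := Matrix.mulVecLin g.1) (fun v => by
      obtain ⟨c, hc⟩ := h1 v
      rw [LinearIndependent.pair_iff]
      push Not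
      refine ⟨c, -1, ?_, fun _ => by simp⟩
      rw [Matrix.mulVecLin_apply, hc, neg_smul, one_smul, add_neg_cancel])
  refine ⟨c, ?_⟩
  apply Matrix.mulVec_injective
  funext v
  have h2 := congrArg (fun f => f v) hc
  rw [Matrix.smul_mulVec, Matrix.one_mulVec]
  exact h2

theorem center_of_scalar {g : Sp n F} {c : F}
    (h : g.1 = c • (1 : Matrix (Fin n ⊕ Fin n) (Fin n ⊕ Fin n) F)) :
    g ∈ Subgroup.center (Sp n F) := by
  rw [Subgroup.mem_center_iff]
  intro x
  apply Subtype.ext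
  change x.1 * g.1 = g.1 * x.1
  rw [h, Matrix.mul_smul, Matrix.smul_mul, mul_one, one_mul]

/-- The projective symplectic group. -/
abbrev PSp (n : ℕ) (F : Type*) [Field F] := Sp n F ⧸ Subgroup.center (Sp n F)

/-- The projection. -/
def mkS (n : ℕ) (F : Type*) [Field F] : Sp n F →* PSp n F := QuotientGroup.mk' _

theorem mkS_surj : Function.Surjective (mkS n F) := QuotientGroup.mk'_surjective _

theorem mkS_eq_one {g : Sp n F} : mkS n F g = 1 ↔ g ∈ Subgroup.center (Sp n F) :=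
  QuotientGroup.eq_one_iff g

theorem mkS_eq {g h : Sp n F} (H : mkS n F g = mkS n F h) : ∃ c : F, g.1 = c • h.1 := by
  have h1 : g * h⁻¹ ∈ Subgroup.center (Sp n F) := by
    rw [← mkS_eq_one, map_mul, map_inv, H, mul_inv_cancel]
  obtain ⟨c, hc⟩ := scalar_of_center h1
  refine ⟨c, ?_⟩
  have h2 : g.1 = (g * h⁻¹).1 * h.1 := by
    change g.1 = (g * h⁻¹ * h).1
    rw [inv_mul_cancel_right]
  rw [h2, hc, Matrix.smul_mul, one_mul]

theorem mkS_eq_of_smul {g h : Sp n F} {c : F} (H : g.1 = c • h.1) : mkS n F g = mkS n F h := by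
  rw [← mul_inv_eq_one, ← map_inv, ← map_mul, mkS_eq_one]
  apply center_of_scalar (c := c)
  change g.1 * (h⁻¹).1 = _
  rw [H, Matrix.smul_mul]
  congr 1
  change (h * h⁻¹).1 = 1
  rw [mul_inv_cancel]
  rfl

end MP7fP
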