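import Pool.Agent.Lib.MP_7f581e_ntP.Unip

/-!
In characteristic 2 transvections are distinguished from the other central elements of the
unitriangular group.
-/

set_option autoImplicit false
set_option linter.unusedSimpArgs false

namespace MP7fP

open Matrix

variable {F : Type*} [Field F] {n : ℕ}

theorem T_prop (h2 : (2 : F) = 0) (v : Fin n ⊕ Fin n → F) (t : F) (g : Sp n F)
    (h : (T v t * (g * T v t * g⁻¹)) ^ 4 = 1) : (T v t * (g * T v t * g⁻¹)) ^ 2 = 1 := by
  rw [conj_T] at h ⊢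
  set w := g.1 *ᵥ v with hw
  have hT : ∀ u : Fin n ⊕ Fin n → F, T u t * T u t = 1 := by
    intro u
    rw [← T_add, ← two_mul, h2, zero_mul, T_zero]
  by_cases ht : t = 0
  · rw [ht, T_zero, T_zero, one_mul, one_pow]
  by_cases hω : om v w = 0
  · rw [pow_two]
    calc T v t * T w t * (T v t * T w t) = T v t * (T w t * T v t) * T w t := by group
      _ = (T v t * T v t) * (T w t * T w t) := by rw [← T_comm hω]; group
      _ = 1 := by rw [hT, hT, one_mul]
  · exfalso
    set τ := t * om v w with hτ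
    have step : ∀ a b : F, (T v t * T w t).1 *ᵥ (a • v + b • w) =
        (a - τ * (b + τ * a)) • v + (b + τ * a) • w := by
      intro a b
      rw [mul_mulVec, T_mulVec, T_mulVec]
      simp only [om_add_left, om_smul_left, om_self, om_swap w v, mul_zero, add_zero, zero_add]
      rw [hτ]
      module
    obtain ⟨W, hW⟩ : ∃ W, W = T v t * T w t := ⟨_, rfl⟩
    rw [← hW] at h step
    have h4 : (W ^ 4).1 *ᵥ ((1 : F) • v + (0 : F) • w) = (1 : F) • v + (0 : F) • w := by
      rw [h, one_mulVec']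
    have h5 : W ^ 4 = W * (W * (W * W)) := by
      rw [pow_succ, pow_succ, pow_two, mul_assoc, mul_assoc]
    rw [h5, mul_mulVec, mul_mulVec, mul_mulVec, step, step, step, step] at h4
    have h6 := congrArg (fun x => om x v) h4
    simp only [om_add_left, om_smul_left, om_self, mul_zero, zero_add, zero_mul] at h6
    have h7 : om w v ≠ 0 := by rw [om_swap]; exact neg_ne_zero.mpr hω
    have h8 := (mul_eq_zero.mp h6).resolve_right h7
    have h9 : τ ^ 7 = 0 := by
      linear_combination -h8 + (2 * τ - 5 * τ ^ 3 + 3 * τ ^ 5) * h2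
    have h10 : τ = 0 := eq_zero_of_pow_eq_zero h9
    rw [hτ] at h10
    rcases mul_eq_zero.mp h10 with h11 | h11
    · exact ht h11
    · exact hω h11

theorem swap_vec {v w : Fin n ⊕ Fin n → F} (h : om v w ≠ 0) :
    (T (v - w) (om v w)⁻¹).1 *ᵥ v = w := by
  rw [T_mulVec, om_sub_right, om_self, zero_sub, mul_neg, inv_mul_cancel₀ h, neg_smul, one_smul]
  abel

theorem T_fix {v x : Fin n ⊕ Fin n → F} (h : om x v = 0) (t : F) : (T v t).1 *ᵥ x = x := by
  rw [T_mulVec, h, mul_zero, zero_smul, add_zero]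

theorem exists_g {i0 i1 i2 : Fin n} (h01 : i0 ≠ i1) (h02 : i0 ≠ i2) (h12 : i1 ≠ i2) :
    ∃ g : Sp n F, g.1 *ᵥ eb i0 = eb i2 ∧ g.1 *ᵥ eb i1 = fb i1 := by
  have e1 : om (eb i1 : Fin n ⊕ Fin n → F) (fb i1) = 1 := by rw [om_eb_fb, if_pos rfl]
  have e2 : om (eb i0 : Fin n ⊕ Fin n → F) (fb i0 + fb i2) = 1 := by
    rw [om_add_right, om_eb_fb, om_eb_fb, if_pos rfl, if_neg h02, add_zero]
  have e3 : om (fb i0 + fb i2 : Fin n ⊕ Fin n → F) (eb i2) = -1 := by
    rw [om_add_left, om_fb_eb, om_fb_eb, if_pos rfl, if_neg h02, zero_add]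
  refine ⟨T (fb i0 + fb i2 - eb i2) (om (fb i0 + fb i2 : Fin n ⊕ Fin n → F) (eb i2))⁻¹ *
    (T (eb i0 - (fb i0 + fb i2)) (om (eb i0 : Fin n ⊕ Fin n → F) (fb i0 + fb i2))⁻¹ *
    T (eb i1 - fb i1) (om (eb i1 : Fin n ⊕ Fin n → F) (fb i1))⁻¹), ?_, ?_⟩
  · rw [mul_mulVec, mul_mulVec, T_fix (x := eb i0), swap_vec, swap_vec]
    · rw [e3]; exact neg_ne_zero.mpr one_ne_zero
    · rw [e2]; exact one_ne_zero
    · rw [om_sub_right, om_eb_eb, om_eb_fb, if_neg h01, sub_zero]
  · rw [mul_mulVec, mul_mulVec, swap_vec, T_fix (v := eb i0 - (fb i0 + fb i2)), T_fix]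
    · rw [om_sub_right, om_add_right, om_fb_fb, om_fb_fb, om_fb_eb, if_neg h12]
      ring
    · rw [om_sub_right, om_add_right, om_fb_fb, om_fb_fb, om_fb_eb, if_neg h01.symm]
      ring
    · rw [e1]; exact one_ne_zero

theorem not_prop (h2 : (2 : F) = 0) {i0 i1 i2 : Fin n} (h01 : i0 ≠ i1) (h02 : i0 ≠ i2)
    (h12 : i1 ≠ i2) {z : Sp n F} {t s : F} (hs : s ≠ 0)
    (hz : ∀ x, z.1 *ᵥ x = x + (t * om x (eb i0)) • eb i0 + (s * om x (eb i0)) • eb i1 +
      (s * om x (eb i1)) • eb i0) :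
    ∃ g : Sp n F, (z * (g * z * g⁻¹)) ^ 4 = 1 ∧ (z * (g * z * g⁻¹)) ^ 2 ≠ 1 := by
  obtain ⟨g, hg0, hg1⟩ := exists_g (F := F) h01 h02 h12
  refine ⟨g, ?_⟩
  have hy : ∀ x, (g * z * g⁻¹).1 *ᵥ x = x + (t * om x (eb i2)) • eb i2 +
      (s * om x (eb i2)) • fb i1 + (s * om x (fb i1)) • eb i2 := by
    intro x
    have ho : ∀ u, om ((g⁻¹).1 *ᵥ x) u = om x (g.1 *ᵥ u) := by
      intro u
      rw [← om_mulVec g.2 ((g⁻¹).1 *ᵥ x), mulVec_inv]
    rw [mul_mulVec, mul_mulVec, hz, ho, ho, hg0, hg1, Matrix.mulVec_add, Matrix.mulVec_add,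
      Matrix.mulVec_add, Matrix.mulVec_smul, Matrix.mulVec_smul, Matrix.mulVec_smul, mulVec_inv,
      hg0, hg1]
  obtain ⟨W, hW⟩ : ∃ W, W = z * (g * z * g⁻¹) := ⟨_, rfl⟩
  rw [← hW]
  have h2' : ∀ x : Fin n ⊕ Fin n → F, x + x = 0 := by
    intro x
    rw [← two_smul F, h2, zero_smul]
  have hWx : ∀ x, W.1 *ᵥ x = x + (t * om x (eb i0)) • eb i0 + (s * om x (eb i0)) • eb i1 +
      (s * om x (eb i1)) • eb i0 + (t * om x (eb i2)) • eb i2 +
      (s * om x (eb i2)) • fb i1 + (s * om x (fb i1)) • eb i2 - (s ^ 2 * om x (eb i2)) • eb i0 := by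
    intro x
    rw [hW, mul_mulVec, hy, hz]
    simp only [om_add_left, om_smul_left, om_eb_eb, om_fb_eb, if_neg h01.symm, if_true,
      mul_zero, add_zero]
    module
  have hW2 : ∀ x, (W * W).1 *ᵥ x = x + (s ^ 2 * om x (eb i2)) • eb i0 +
      (s ^ 2 * om x (eb i0)) • eb i2 := by
    intro x
    rw [mul_mulVec, hWx (W.1 *ᵥ x), hWx x]
    simp only [om_add_left, om_sub_left, om_smul_left, om_eb_eb, om_fb_eb, om_fb_fb, om_eb_fb,
      if_neg h01, if_neg h02, if_neg h12, if_neg h01.symm, if_neg h02.symm, if_neg h12.symm,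
      if_pos, mul_zero, add_zero, sub_zero]
    match_scalars
    all_goals first
      | ring1
      | linear_combination (t * om x (eb i0) + s * om x (eb i1) - 2 * s ^ 2 * om x (eb i2)) * h2
      | linear_combination (s * om x (eb i0)) * h2
      | linear_combination (t * om x (eb i2) + s * om x (fb i1)) * h2
      | linear_combination (s * om x (eb i2)) * h2
  have hW0 : ∀ x, (W * W * (W * W)).1 *ᵥ x = x := by
    intro x
    rw [mul_mulVec, hW2 ((W * W).1 *ᵥ x), hW2 x]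
    simp only [om_add_left, om_smul_left, om_eb_eb, mul_zero, add_zero]
    match_scalars
    all_goals first
      | ring1
      | linear_combination (s ^ 2 * om x (eb i2)) * h2
      | linear_combination (s ^ 2 * om x (eb i0)) * h2
  constructor
  · have h5 : W ^ 4 = W * W * (W * W) := by
      rw [pow_succ, pow_succ, pow_two, mul_assoc]
    rw [h5]
    apply sp_ext
    intro x
    rw [hW0, one_mulVec']
  · intro h
    rw [pow_two] at h
    have h3 := hW2 (fb i0)
    rw [h, one_mulVec', om_fb_eb, om_fb_eb, if_neg h02, if_pos rfl] at h3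
    have h4 := congrFun h3 (Sum.inl i2)
    simp only [Pi.add_apply, Pi.smul_apply, fb_inl, eb_inl, if_neg h02, if_pos, smul_eq_mul,
      mul_zero, mul_one, zero_add, add_zero] at h4
    apply hs
    have : s ^ 2 = 0 := by linear_combination h4
    exact pow_eq_zero_iff (two_ne_zero) |>.mp this

theorem smul_sq (h : 0 < n) {g g' : Sp n F} {c : F} (H : g.1 = c • g'.1) : c ^ 2 = 1 := by
  have h1 := om_mulVec g.2 (eb ⟨0, h⟩) (fb ⟨0, h⟩)
  rw [H, Matrix.smul_mulVec, Matrix.smul_mulVec, om_smul_left, om_smul_right, om_mulVec g'.2,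
    om_eb_fb, if_pos rfl] at h1
  linear_combination h1

theorem mkS_inj_two (h : 0 < n) (h2 : (2 : F) = 0) {g g' : Sp n F} (H : mkS n F g = mkS n F g') :
    g = g' := by
  obtain ⟨c, hc⟩ := mkS_eq H
  have h1 := smul_sq h hc
  have h3 : (c - 1) ^ 2 = 0 := by linear_combination h1 + (1 - c) * h2
  have h4 : c = 1 := sub_eq_zero.mp (eq_zero_of_pow_eq_zero h3)
  apply Subtype.ext
  rw [hc, h4, one_smul]

end MP7fP
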