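import Pool.Agent.Lib.MP_7f581e_ntP.Char2

/-!
Automorphisms of `PSp(2n, F)` map transvections to transvections.
-/

set_option autoImplicit false

namespace MP7fP

open Matrix Matrix.SpecialLinearGroup MP7fG

variable {F : Type*} [Field F] {n : ℕ}

/-- An automorphism of a finite group preserves a Sylow subgroup up to conjugation. -/
theorem exists_conj_sylow {G : Type*} [Group G] [Finite G] {p : ℕ} [hp : Fact p.Prime]
    (U : Subgroup G) (hP1 : IsPGroup p U) (hP2 : ¬ p ∣ U.index) (α : G ≃* G) :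
    ∃ g : G, ∀ A, A ∈ U ↔ g⁻¹ * α A * g ∈ U := by
  let P : Sylow p G := hP1.toSylow hP2
  have hQ1 : IsPGroup p (U.map α.toMonoidHom) := hP1.map _
  have hQ2 : ¬ p ∣ (U.map α.toMonoidHom).index := by
    have : (U.map α.toMonoidHom).index = U.index := by
      rw [Subgroup.index_map_of_bijective]
      exact α.bijective
    rw [this]
    exact hP2
  let Q : Sylow p G := hQ1.toSylow hQ2
  obtain ⟨g, hg⟩ := MulAction.exists_smul_eq G P Q
  refine ⟨g, fun A => ?_⟩
  have h1 : ∀ B, B ∈ (Q : Subgroup G) ↔ g⁻¹ * B * g ∈ U := by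
    intro B
    rw [← hg, Sylow.coe_subgroup_smul, Subgroup.mem_pointwise_smul_iff_inv_smul_mem]
    rw [← map_inv, MulAut.smul_def, MulAut.conj_apply, inv_inv]
    rfl
  rw [← h1]
  change _ ↔ α A ∈ U.map α.toMonoidHom
  constructor
  · intro h
    exact ⟨A, h, rfl⟩
  · rintro ⟨B, hB, hBA⟩
    have : B = A := α.injective hBA
    rwa [← this]

theorem uu_center [Finite F] (h : 0 < n) {A : Sp n F} (hA : A ∈ uu n F)
    (hc : A ∈ Subgroup.center (Sp n F)) : A = 1 := by
  obtain ⟨c, hc⟩ := scalar_of_center hc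
  have h1 := mem_uu.mp hA (Sum.inl ⟨0, h⟩) (Sum.inl ⟨0, h⟩) le_rfl
  rw [if_pos rfl, hc, Matrix.smul_apply, Matrix.one_apply_eq, smul_eq_mul, mul_one] at h1
  rw [h1, one_smul] at hc
  exact Subtype.ext hc

theorem finite_PSp [Finite F] : Finite (PSp n F) := Finite.of_surjective _ mkS_surj

/-- Every automorphism of `PSp(2n, F)` maps the highest root group to a conjugate of itself. -/
theorem exists_conj_T [Finite F] (h2 : 2 ≤ n) (h3 : (2 : F) = 0 → 3 ≤ n)
    (α : PSp n F ≃* PSp n F) :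
    ∃ g : Sp n F, ∀ t, ∃ s, α (mkS n F (T (eb ⟨0, by omega⟩) t)) =
      mkS n F (g * T (eb ⟨0, by omega⟩) s * g⁻¹) := by
  obtain ⟨p, hp⟩ := CharP.exists F
  have hpp : Fact p.Prime := ⟨CharP.char_is_prime F p⟩
  have := finite_PSp (F := F) (n := n)
  obtain ⟨P, hP⟩ := exists_sylow (F := F) (n := n) (p := p)
  obtain ⟨g', hg'⟩ := exists_conj_sylow (p := p) ((uu n F).map (mkS n F))
    (by rw [← hP]; exact P.isPGroup'.map _)
    (by
      intro hd
      have h5 : ¬ p ∣ (uu n F).index := by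
        rw [← hP]
        exact P.not_dvd_index
      exact h5 (hd.trans (Subgroup.index_map_dvd (uu n F) mkS_surj))) α
  obtain ⟨g, rfl⟩ := mkS_surj g'
  refine ⟨g, fun t => ?_⟩
  set x := α (mkS n F (T (eb ⟨0, by omega⟩) t)) with hx
  have h1 : (mkS n F g)⁻¹ * x * mkS n F g ∈ (uu n F).map (mkS n F) :=
    (hg' _).mp ⟨_, T_mem_uu _ t, rfl⟩
  obtain ⟨z, hz, hz1⟩ := h1
  have hcom : ∀ A ∈ uu n F, z * A * z⁻¹ = A := by
    intro A hA
    have h2 : α.symm (mkS n F g * mkS n F A * (mkS n F g)⁻¹) ∈ (uu n F).map (mkS n F) := by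
      rw [hg', MulEquiv.apply_symm_apply]
      have : (mkS n F g)⁻¹ * (mkS n F g * mkS n F A * (mkS n F g)⁻¹) * mkS n F g = mkS n F A := by
        group
      rw [this]
      exact ⟨A, hA, rfl⟩
    obtain ⟨B, hB, hB1⟩ := h2
    have h3 := congrArg (fun X => α (mkS n F X)) (T_centre_uu (by omega) hB t)
    simp only [map_mul, map_inv, hB1, MulEquiv.apply_symm_apply] at h3
    rw [← hx] at h3
    have h5 : mkS n F (z * A * z⁻¹ * A⁻¹) = 1 := by
      simp only [map_mul, map_inv, hz1]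
      set a := mkS n F A
      set b := mkS n F g
      calc b⁻¹ * x * b * a * (b⁻¹ * x * b)⁻¹ * a⁻¹ =
          b⁻¹ * x * (b * a * b⁻¹ * x * (b * a * b⁻¹)⁻¹)⁻¹ * b := by group
        _ = b⁻¹ * x * x⁻¹ * b := by rw [h3]
        _ = 1 := by group
    have h6 : z * A * z⁻¹ * A⁻¹ = 1 := by
      apply uu_center (by omega)
      · exact mul_mem (mul_mem (mul_mem hz hA) (inv_mem hz)) (inv_mem hA)
      · rw [← mkS_eq_one, h5]
    exact mul_inv_eq_one.mp h6
  obtain ⟨t', s, hs, hz'⟩ := centre_uu h2 hz hcom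
  have hs0 : s = 0 := by
    by_cases hc : (2 : F) = 0
    · by_contra hs0
      have hn3 := h3 hc
      obtain ⟨g1, hg1, hg2⟩ := not_prop hc (i0 := ⟨0, by omega⟩) (i1 := ⟨1, by omega⟩)
        (i2 := ⟨2, by omega⟩) (by simp) (by simp) (by simp) hs0 hz'
      apply hg2
      -- transport
      obtain ⟨g2, hg2'⟩ := mkS_surj (α.symm (mkS n F g * mkS n F g1 * (mkS n F g)⁻¹))
      have hk : ∀ k : ℕ, mkS n F ((z * (g1 * z * g1⁻¹)) ^ k) =
          (mkS n F g)⁻¹ * α (mkS n F ((T (eb ⟨0, by omega⟩) t *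
            (g2 * T (eb ⟨0, by omega⟩) t * g2⁻¹)) ^ k)) * mkS n F g := by
        intro k
        have h5 : mkS n F (z * (g1 * z * g1⁻¹)) =
            (mkS n F g)⁻¹ * α (mkS n F (T (eb ⟨0, by omega⟩) t *
            (g2 * T (eb ⟨0, by omega⟩) t * g2⁻¹))) * mkS n F g := by
          simp only [map_mul, map_inv, hg2', MulEquiv.apply_symm_apply, hz1]
          rw [← hx]
          group
        rw [map_pow, h5, map_pow, map_pow]
        have h6 := (MulAut.conj (mkS n F g)⁻¹).toMonoidHom.map_pow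
          (α (mkS n F (T (eb ⟨0, by omega⟩) t * (g2 * T (eb ⟨0, by omega⟩) t * g2⁻¹)))) k
        simp only [MulEquiv.toMonoidHom_eq_coe, MonoidHom.coe_coe, MulAut.conj_apply, inv_inv] at h6
        exact h6.symm
      have h4 := hk 4
      rw [hg1, map_one] at h4
      have h5 : mkS n F ((T (eb ⟨0, by omega⟩) t *
            (g2 * T (eb ⟨0, by omega⟩) t * g2⁻¹)) ^ 4) = mkS n F 1 := by
        apply α.injective
        rw [map_one, map_one]
        have h6 := h4.symm
        rw [mul_assoc, inv_mul_eq_one] at h6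
        exact mul_right_cancel (b := mkS n F g) (by rw [one_mul, ← h6])
      have h6 := T_prop hc _ _ _ (mkS_inj_two (by omega) hc h5)
      have h7 := hk 2
      rw [h6, map_one, map_one, mul_one, inv_mul_cancel] at h7
      exact mkS_inj_two (by omega) hc (h7.trans (map_one _).symm)
    · exact (mul_eq_zero.mp hs).resolve_left hc
  refine ⟨t', ?_⟩
  have h4 : z = T (eb ⟨0, by omega⟩) t' := by
    apply sp_ext
    intro y
    rw [hz', hs0, T_mulVec]
    simp
  rw [← h4, map_mul, map_mul, hz1, map_inv]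
  group

end MP7fP
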