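import Pool.Agent.Lib.MP_7f581e_ntG.Syl

/-!
A criterion for the group of unitriangular elements of a linear group to be a Sylow subgroup.
-/

set_option autoImplicit false

namespace MP7fP

open Matrix Matrix.SpecialLinearGroup MP7fG

variable {F : Type*} [Field F] {N : ℕ}

section

variable {G : Type*} [Group G] (ρ : G →* SpecialLinearGroup (Fin N) F) (Q : Subgroup G) (j : ℕ)

/-- The elements of `Q` have unitriangular columns below `j`. -/
def Col : Prop := ∀ g ∈ Q, ∀ a b : Fin N, b.val < j → b ≤ a → (ρ g).1 a b = if a = b then 1 else 0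

/-- The lower right block. -/
def blk (g : G) : Matrix {a : Fin N // j ≤ a.val} {a : Fin N // j ≤ a.val} F :=
  (ρ g).1.submatrix Subtype.val Subtype.val

variable {Q j}

theorem blk_mulVec (h : Col ρ Q j) {g : G} (hg : g ∈ Q) (x : Fin N → F)
    (a : {a : Fin N // j ≤ a.val}) :
    (blk ρ j g *ᵥ (fun b => x b.val)) a = ((ρ g).1 *ᵥ x) a.val := by
  classical
  have h0 : ∑ b ∈ Finset.univ.filter (fun b : Fin N => j ≤ b.val), (ρ g).1 a.val b * x b =
      ∑ b : {a : Fin N // j ≤ a.val}, (ρ g).1 a.val b.val * x b.val :=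
    Finset.sum_subtype (p := fun b : Fin N => j ≤ b.val)
      (Finset.univ.filter (fun b : Fin N => j ≤ b.val)) (fun b => by simp)
      (fun b => (ρ g).1 a.val b * x b)
  have h1 : (blk ρ j g *ᵥ (fun b => x b.val)) a =
    ∑ b : {a : Fin N // j ≤ a.val}, (ρ g).1 a.val b.val * x b.val := rfl
  have h2 : ((ρ g).1 *ᵥ x) a.val = ∑ b, (ρ g).1 a.val b * x b := rfl
  rw [h1, h2, ← h0, Finset.sum_filter]
  apply Finset.sum_congr rfl
  intro b _
  split_ifs with hb
  · rfl
  · have h1 := h g hg a.val b (not_le.mp hb) (by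
      rw [Fin.le_def]
      exact (not_le.mp hb).le.trans a.2)
    have h2 : ¬ a.val = b := by
      intro h3
      exact hb (h3 ▸ a.2)
    rw [h1, if_neg h2, zero_mul]

theorem blk_mul (h : Col ρ Q j) {g g' : G} (hg : g ∈ Q) :
    blk ρ j (g * g') = blk ρ j g * blk ρ j g' := by
  ext a b
  have h1 := blk_mulVec ρ h hg (fun c => (ρ g').1 c b.val) a
  have h2 : (blk ρ j (g * g')) a b = ((ρ g).1 *ᵥ (fun c => (ρ g').1 c b.val)) a.val := by
    change (ρ (g * g')).1 a.val b.val = _
    rw [map_mul]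
    rfl
  rw [h2, ← h1]
  rfl

theorem blk_one : blk ρ j 1 = 1 := by
  ext a b
  change (ρ 1).1 a.val b.val = _
  rw [map_one, coe_one, Matrix.one_apply, Matrix.one_apply]
  congr 1
  rw [Subtype.ext_iff]

/-- The action on the quotient. -/
@[instance_reducible] def blkAct (h : Col ρ Q j) : MulAction Q ({a : Fin N // j ≤ a.val} → F) where
  smul g y := blk ρ j g.1 *ᵥ y
  one_smul y := by
    change blk ρ j 1 *ᵥ y = y
    rw [blk_one, Matrix.one_mulVec]
  mul_smul g g' y := by
    change blk ρ j (g.1 * g'.1) *ᵥ y = blk ρ j g.1 *ᵥ (blk ρ j g'.1 *ᵥ y)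
    rw [blk_mul ρ h g.2, Matrix.mulVec_mulVec]

theorem col_step [Finite F] {p : ℕ} [hp : Fact p.Prime] [CharP F p] (hQ : IsPGroup p Q)
    (hj : j < N) (h : Col ρ Q j)
    (hrich : ∀ x : Fin N → F, (∀ g ∈ Q, ∀ a : Fin N, j ≤ a.val → ((ρ g).1 *ᵥ x) a = x a) →
      ∀ a : Fin N, j < a.val → x a = 0) : Col ρ Q (j + 1) := by
  classical
  have := Fintype.ofFinite F
  let _ := blkAct ρ h
  have h0 : (0 : {a : Fin N // j ≤ a.val} → F) ∈
      MulAction.fixedPoints Q ({a : Fin N // j ≤ a.val} → F) := by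
    intro g
    change blk ρ j g.1 *ᵥ 0 = 0
    exact Matrix.mulVec_zero _
  have hcard : p ∣ Nat.card ({a : Fin N // j ≤ a.val} → F) := by
    obtain ⟨k, hk⟩ := FiniteField.card F p
    rw [Nat.card_fun, Nat.card_eq_fintype_card (α := F), hk.2, ← pow_mul]
    apply dvd_pow_self
    have h1 : Nat.card {a : Fin N // j ≤ a.val} ≠ 0 := by
      have : Nonempty {a : Fin N // j ≤ a.val} := ⟨⟨⟨j, hj⟩, le_rfl⟩⟩
      exact Nat.card_pos.ne'
    exact mul_ne_zero k.ne_zero h1
  obtain ⟨y, hy, hy0⟩ := hQ.exists_fixed_point_of_prime_dvd_card_of_fixed_point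
    ({a : Fin N // j ≤ a.val} → F) hcard h0
  let x : Fin N → F := fun a => if ha : j ≤ a.val then y ⟨a, ha⟩ else 0
  have hxy : (fun b : {a : Fin N // j ≤ a.val} => x b.val) = y := by
    funext b
    simp only [x, b.2, dif_pos]
  have hx : ∀ g ∈ Q, ∀ a : Fin N, j ≤ a.val → ((ρ g).1 *ᵥ x) a = x a := by
    intro g hg a ha
    have h1 := blk_mulVec ρ h hg x ⟨a, ha⟩
    rw [hxy] at h1
    have h2 : blk ρ j g *ᵥ y = y := hy ⟨g, hg⟩
    rw [h2] at h1
    rw [← h1]
    simp only [x, ha, dif_pos]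
  have hx0 := hrich x hx
  let b : Fin N := ⟨j, hj⟩
  have hxb : x b ≠ 0 := by
    intro hb
    apply hy0
    rw [← hxy]
    funext a
    rcases eq_or_lt_of_le a.2 with h1 | h1
    · have : a.val = b := Fin.ext h1.symm
      rw [this, hb]
      rfl
    · rw [hx0 a.val h1]
      rfl
  have hxe : ∀ a : Fin N, x a = if a = b then x b else 0 := by
    intro a
    split_ifs with hab
    · rw [hab]
    · by_cases ha : j ≤ a.val
      · exact hx0 a (lt_of_le_of_ne ha fun h => hab (Fin.ext h.symm))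
      · simp only [x, ha, dif_neg, not_false_eq_true]
  intro g hg a c hc hac
  rcases Nat.lt_succ_iff_lt_or_eq.mp hc with h1 | h1
  · exact h g hg a c h1 hac
  · have hcb : c = b := Fin.ext h1
    have ha : j ≤ a.val := by
      rw [← h1]
      exact hac
    have h2 := hx g hg a ha
    have h3 : ((ρ g).1 *ᵥ x) a = (ρ g).1 a b * x b := by
      rw [Matrix.mulVec, dotProduct, Finset.sum_eq_single b]
      · intro d _ hd
        rw [hxe d, if_neg hd, mul_zero]
      · intro h
        exact absurd (Finset.mem_univ _) h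
    rw [h3, hxe a] at h2
    rw [hcb]
    split_ifs at h2 ⊢ with h4
    · exact mul_right_cancel₀ hxb (h2.trans (one_mul _).symm)
    · exact (mul_eq_zero.mp h2).resolve_right hxb

end

/-- A criterion for the unitriangular subgroup to be a Sylow subgroup. -/
theorem sylow_crit [Finite F] {p : ℕ} [hp : Fact p.Prime] [CharP F p] {G : Type*} [Group G]
    (ρ : G →* SpecialLinearGroup (Fin N) F) (hρ : Function.Injective ρ)
    (rich : ∀ (j : ℕ) (x : Fin N → F), j < N →
      (∀ g ∈ (ut N F).comap ρ, ∀ a : Fin N, j ≤ a.val → ((ρ g).1 *ᵥ x) a = x a) →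
      ∀ a : Fin N, j < a.val → x a = 0) :
    ∃ P : Sylow p G, (P : Subgroup G) = (ut N F).comap ρ := by
  have h1 : IsPGroup p ((ut N F).comap ρ) := (isPGroup_ut (p := p)).comap_of_injective ρ hρ
  refine ⟨⟨(ut N F).comap ρ, h1, ?_⟩, rfl⟩
  intro Q hQ hle
  apply le_antisymm _ hle
  have hcol : ∀ j, j ≤ N → Col ρ Q j := by
    intro j
    induction j with
    | zero =>
      intro _ g _ a b hb
      exact absurd hb (Nat.not_lt_zero _)
    | succ j ih =>
      intro hj
      refine col_step ρ hQ (Nat.lt_of_succ_le hj) (ih (Nat.le_of_succ_le hj)) ?_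
      intro x hx
      exact rich j x (Nat.lt_of_succ_le hj) fun g hg => hx g (hle hg)
  intro g hg
  rw [Subgroup.mem_comap, mem_ut]
  intro a b hab
  exact hcol N le_rfl g hg a b b.2 hab

end MP7fP
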