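import Pool.Agent.Lib.MP_7f581e_ntP.SylCrit
import Pool.Agent.Lib.MP_7f581e_ntP.Basic

/-!
The unitriangular symplectic matrices: Sylow subgroup and centre.
-/

set_option autoImplicit false

namespace MP7fP

open Matrix Matrix.SpecialLinearGroup MP7fG

variable {F : Type*} [Field F] {n : ℕ}

/-- Products of transvections with commuting centres. -/
def X (a b : Fin n ⊕ Fin n → F) (s : F) : Sp n F := T (a + b) s * T a (-s) * T b (-s)

theorem X_mulVec {a b : Fin n ⊕ Fin n → F} (h : om a b = 0) (s : F) (x : Fin n ⊕ Fin n → F) :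
    (X a b s).1 *ᵥ x = x + (s * om x a) • b + (s * om x b) • a := by
  have h' : om b a = 0 := by rw [om_swap, h, neg_zero]
  rw [X, mul_mulVec, mul_mulVec, T_mulVec, T_mulVec, T_mulVec]
  simp only [om_add_left, om_add_right, om_smul_left, om_self, h, h', mul_zero, add_zero]
  module

theorem conj_X (g : Sp n F) (a b : Fin n ⊕ Fin n → F) (s : F) :
    g * X a b s * g⁻¹ = X (g.1 *ᵥ a) (g.1 *ᵥ b) s := by
  have : g * X a b s * g⁻¹ = (g * T (a + b) s * g⁻¹) * (g * T a (-s) * g⁻¹) *
      (g * T b (-s) * g⁻¹) := by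
    rw [X]; group
  rw [this, conj_T, conj_T, conj_T, Matrix.mulVec_add]
  rfl

theorem apply_eq (g : Sp n F) (a b : Fin n ⊕ Fin n) : g.1 a b = (g.1 *ᵥ Pi.single b 1) a := by
  rw [Matrix.mulVec_single_one]
  rfl

theorem om_single (b : Fin n ⊕ Fin n) (y : Fin n ⊕ Fin n → F) :
    om (Pi.single b 1) y = dv y b := by
  rw [om, dotProduct_single_one]

theorem eb_inl (i j : Fin n) : (eb i : Fin n ⊕ Fin n → F) (Sum.inl j) = if i = j then 1 else 0 := by
  rw [eb, Pi.single_apply]
  simp [eq_comm]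

theorem eb_inr (i j : Fin n) : (eb i : Fin n ⊕ Fin n → F) (Sum.inr j) = 0 := by
  rw [eb, Pi.single_apply]
  simp

theorem fb_inr (i j : Fin n) : (fb i : Fin n ⊕ Fin n → F) (Sum.inr j) = if i = j then 1 else 0 := by
  rw [fb, Pi.single_apply]
  simp [eq_comm]

theorem fb_inl (i j : Fin n) : (fb i : Fin n ⊕ Fin n → F) (Sum.inl j) = 0 := by
  rw [fb, Pi.single_apply]
  simp

/-- The order of the basis. -/
def se (n : ℕ) : Fin n ⊕ Fin n ≃ Fin (n + n) :=
  (Equiv.sumCongr (Equiv.refl _) Fin.revPerm).trans finSumFinEquiv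

theorem se_inl (i : Fin n) : (se n (Sum.inl i)).val = i.val := by
  simp [se]

theorem se_inr (i : Fin n) : (se n (Sum.inr i)).val = n + (n - (i.val + 1)) := by
  simp [se, Nat.add_comm]

/-- The embedding in the special linear group. -/
def emb (n : ℕ) (F : Type*) [Field F] : Sp n F →* SpecialLinearGroup (Fin (n + n)) F where
  toFun g := ⟨Matrix.reindex (se n) (se n) g.1, by
    rw [Matrix.det_reindex_self]
    exact SymplecticGroup.det_eq_one g.2⟩
  map_one' := by
    apply Subtype.ext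
    change Matrix.reindex (se n) (se n) 1 = 1
    simp
  map_mul' g h := by
    apply Subtype.ext
    change Matrix.reindex (se n) (se n) (g.1 * h.1) =
      Matrix.reindex (se n) (se n) g.1 * Matrix.reindex (se n) (se n) h.1
    simp [Matrix.submatrix_mul_equiv]

theorem emb_apply (g : Sp n F) (a b : Fin n ⊕ Fin n) :
    (emb n F g).1 (se n a) (se n b) = g.1 a b := by
  change Matrix.reindex (se n) (se n) g.1 (se n a) (se n b) = _
  simp

theorem emb_injective : Function.Injective (emb n F) := by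
  intro g h hgh
  apply Subtype.ext
  ext a b
  rw [← emb_apply, hgh, emb_apply]

theorem emb_mulVec (g : Sp n F) (x : Fin (n + n) → F) (a : Fin n ⊕ Fin n) :
    ((emb n F g).1 *ᵥ x) (se n a) = (g.1 *ᵥ (fun b => x (se n b))) a := by
  rw [Matrix.mulVec, dotProduct, Matrix.mulVec, dotProduct, ← (se n).sum_comp]
  apply Finset.sum_congr rfl
  intro b _
  rw [emb_apply]

/-- The unitriangular group. -/
def uu (n : ℕ) (F : Type*) [Field F] [Finite F] : Subgroup (Sp n F) := (ut (n + n) F).comap (emb n F)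

theorem mem_uu [Finite F] {g : Sp n F} : g ∈ uu n F ↔
    ∀ a b, (se n b).val ≤ (se n a).val → g.1 a b = if a = b then 1 else 0 := by
  constructor
  · intro h a b hab
    have := mem_ut.mp h (se n a) (se n b) hab
    rw [emb_apply] at this
    simpa using this
  · intro h
    change emb n F g ∈ ut (n + n) F
    rw [mem_ut]
    intro a b hab
    have := h ((se n).symm a) ((se n).symm b) (by simpa using hab)
    rw [← emb_apply] at this
    simpa using this

theorem T_mem_uu [Finite F] (i : Fin n) (t : F) : T (eb i) t ∈ uu n F := by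
  rw [mem_uu]
  intro a b hab
  rw [apply_eq, T_mulVec, Pi.add_apply, Pi.smul_apply, om_single, Pi.single_apply, smul_eq_mul]
  suffices h : t * dv (eb i) b * eb i a = 0 by rw [h, add_zero]
  rcases a with a | a <;> rcases b with b | b
  · simp [dv, eb_inr]
  · rw [se_inl, se_inr] at hab
    have := b.2
    simp only [dv, Sum.elim_inr, eb_inl]
    by_cases h1 : i = b
    · by_cases h2 : i = a
      · subst h1; subst h2; omega
      · simp [h2]
    · simp [h1]
  · simp [dv, eb_inr]
  · simp [eb_inr]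

theorem X_mem_uu [Finite F] {i k : Fin n} (hik : i < k) (s : F) : X (eb i) (fb k) s ∈ uu n F := by
  have h0 : om (eb i : Fin n ⊕ Fin n → F) (fb k) = 0 := by
    rw [om_eb_fb, if_neg hik.ne]
  rw [mem_uu]
  intro a b hab
  rw [apply_eq, X_mulVec h0, Pi.add_apply, Pi.add_apply, Pi.smul_apply, Pi.smul_apply, om_single,
    om_single, Pi.single_apply, smul_eq_mul, smul_eq_mul]
  suffices h : s * dv (eb i) b * fb k a = 0 ∧ s * dv (fb k) b * eb i a = 0 by
    rw [h.1, h.2, add_zero, add_zero]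
  have hlt : i.val < k.val := hik
  have hi := i.2
  have hk := k.2
  rcases a with a | a <;> rcases b with b | b
  · constructor
    · simp [dv, eb_inr]
    · simp only [dv, Sum.elim_inl, eb_inl, fb_inr]
      rw [se_inl, se_inl] at hab
      by_cases h1 : i = a
      · by_cases h2 : k = b
        · subst h1; subst h2; omega
        · simp [h2]
      · simp [h1]
  · constructor
    · simp [fb_inl]
    · simp [dv, fb_inl]
  · constructor
    · simp [dv, eb_inr]
    · simp [eb_inr]
  · constructor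
    · simp only [dv, Sum.elim_inr, eb_inl, fb_inr]
      rw [se_inr, se_inr] at hab
      by_cases h1 : i = b
      · by_cases h2 : k = a
        · subst h1; subst h2; omega
        · simp [h2]
      · simp [h1]
    · simp [dv, fb_inl]

theorem rich [Finite F] (j : ℕ) (x : Fin (n + n) → F) (_ : j < n + n)
    (h : ∀ g ∈ (ut (n + n) F).comap (emb n F), ∀ a : Fin (n + n), j ≤ a.val →
      ((emb n F g).1 *ᵥ x) a = x a) (a : Fin (n + n)) (ha : j < a.val) : x a = 0 := by
  have key : ∀ g ∈ uu n F, ∀ b : Fin n ⊕ Fin n, j ≤ (se n b).val →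
      (g.1 *ᵥ (fun b => x (se n b))) b = x (se n b) := by
    intro g hg b hb
    rw [← emb_mulVec]
    exact h g hg _ hb
  obtain ⟨b, rfl⟩ := (se n).surjective a
  set y : Fin n ⊕ Fin n → F := fun b => x (se n b) with hy
  rcases b with i | i
  · rw [se_inl] at ha
    have hi : 1 ≤ i.val := by omega
    have hlt : (⟨i.val - 1, by omega⟩ : Fin n) < i := by
      rw [Fin.lt_def]; simp only; omega
    have h0 : om (eb ⟨i.val - 1, by omega⟩ : Fin n ⊕ Fin n → F) (fb i) = 0 := by
      rw [om_eb_fb, if_neg hlt.ne]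
    have h1 := key _ (X_mem_uu hlt 1) (Sum.inl ⟨i.val - 1, by omega⟩) (by
      rw [se_inl]; simp only; omega)
    rw [X_mulVec h0, Pi.add_apply, Pi.add_apply, Pi.smul_apply, Pi.smul_apply, eb_inl, fb_inl,
      if_pos rfl, om_fb_right, smul_eq_mul, smul_eq_mul, mul_zero, mul_one, one_mul, add_zero] at h1
    have h2 : y (Sum.inl ⟨i.val - 1, by omega⟩) = x (se n (Sum.inl ⟨i.val - 1, by omega⟩)) := rfl
    rw [← h2] at h1
    exact add_eq_left.mp h1
  · rw [se_inr] at ha
    by_cases hi : i.val + 1 = n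
    · have h1 := key _ (T_mem_uu i 1) (Sum.inl i) (by rw [se_inl]; omega)
      rw [T_mulVec, Pi.add_apply, Pi.smul_apply, eb_inl, if_pos rfl, om_eb_right, smul_eq_mul,
        mul_one, one_mul] at h1
      have h2 : y (Sum.inl i) = x (se n (Sum.inl i)) := rfl
      rw [← h2] at h1
      exact neg_eq_zero.mp (add_eq_left.mp h1)
    · have hi2 := i.2
      have hlt : i < (⟨i.val + 1, by omega⟩ : Fin n) := by
        rw [Fin.lt_def]; simp only; omega
      have h0 : om (eb i : Fin n ⊕ Fin n → F) (fb ⟨i.val + 1, by omega⟩) = 0 := by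
        rw [om_eb_fb, if_neg hlt.ne]
      have h1 := key _ (X_mem_uu hlt 1) (Sum.inr ⟨i.val + 1, by omega⟩) (by
        rw [se_inr]; simp only; omega)
      rw [X_mulVec h0, Pi.add_apply, Pi.add_apply, Pi.smul_apply, Pi.smul_apply, eb_inr, fb_inr,
        if_pos rfl, om_eb_right, smul_eq_mul, smul_eq_mul, mul_zero, mul_one, one_mul, add_zero]
        at h1
      have h2 : y (Sum.inr ⟨i.val + 1, by omega⟩) = x (se n (Sum.inr ⟨i.val + 1, by omega⟩)) := rfl
      rw [← h2] at h1
      exact neg_eq_zero.mp (add_eq_left.mp h1)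

theorem exists_sylow [Finite F] {p : ℕ} [hp : Fact p.Prime] [CharP F p] :
    ∃ P : Sylow p (Sp n F), (P : Subgroup (Sp n F)) = uu n F :=
  sylow_crit (emb n F) emb_injective fun j x hj h a ha => rich j x hj h a ha

/-- The centre of the unitriangular group. -/
theorem centre_uu [Finite F] (h2 : 2 ≤ n) {z : Sp n F} (hz : z ∈ uu n F)
    (hc : ∀ g ∈ uu n F, z * g * z⁻¹ = g) :
    ∃ t s : F, 2 * s = 0 ∧ ∀ x, z.1 *ᵥ x = x + (t * om x (eb ⟨0, by omega⟩)) • eb ⟨0, by omega⟩ +
      (s * om x (eb ⟨0, by omega⟩)) • eb ⟨1, by omega⟩ +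
      (s * om x (eb ⟨1, by omega⟩)) • eb ⟨0, by omega⟩ := by
  set i0 : Fin n := ⟨0, by omega⟩ with hi0
  set i1 : Fin n := ⟨1, by omega⟩ with hi1
  have h01 : i0 < i1 := by rw [Fin.lt_def]; simp [hi0, hi1]
  have he : ∀ i, z.1 *ᵥ eb i = eb i := by
    intro i
    have h1 := hc _ (T_mem_uu i 1)
    rw [conj_T] at h1
    obtain ⟨c, -, hc1, -⟩ := T_eq (mulVec_ne_zero z (eb_ne_zero i)) one_ne_zero h1
    have h3 : (z.1 *ᵥ eb i) (Sum.inl i) = 1 := by
      have := mem_uu.mp hz (Sum.inl i) (Sum.inl i) le_rfl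
      rwa [apply_eq, if_pos rfl] at this
    rw [hc1, Pi.smul_apply, eb_inl, if_pos rfl, smul_eq_mul, mul_one] at h3
    rw [hc1, h3, one_smul]
  have hinr : ∀ x i, (z.1 *ᵥ x) (Sum.inr i) = x (Sum.inr i) := by
    intro x i
    have := om_mulVec z.2 x (eb i)
    rw [he, om_eb_right, om_eb_right] at this
    exact neg_inj.mp this
  have hinl : ∀ x i, (z.1 *ᵥ x) (Sum.inl i) = x (Sum.inl i) -
      om (z.1 *ᵥ x) (z.1 *ᵥ fb i - fb i) := by
    intro x i
    rw [om_sub_right, om_mulVec z.2, om_fb_right, om_fb_right]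
    ring
  have hf : ∀ i k : Fin n, i < k → ∃ β : F, 2 * β = 0 ∧ z.1 *ᵥ fb k = fb k + β • eb i := by
    intro i k hik
    have h0 : om (eb i : Fin n ⊕ Fin n → F) (fb k) = 0 := by
      rw [om_eb_fb, if_neg hik.ne]
    have h0' : om (z.1 *ᵥ eb i) (z.1 *ᵥ fb k) = 0 := by rw [om_mulVec z.2, h0]
    have h1 := hc _ (X_mem_uu hik 1)
    rw [conj_X] at h1
    have h3 : ∀ x, om x (eb i) • (z.1 *ᵥ fb k - fb k) + om x (z.1 *ᵥ fb k - fb k) • eb i = 0 := by
      intro x
      have h4 : (X (z.1 *ᵥ eb i) (z.1 *ᵥ fb k) 1).1 *ᵥ x = (X (eb i) (fb k) 1).1 *ᵥ x := by rw [h1]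
      rw [X_mulVec h0', X_mulVec h0, he, one_mul, one_mul, one_mul] at h4
      have h5 := sub_eq_zero.mpr h4
      rw [om_sub_right, ← h5]
      module
    set w := z.1 *ᵥ fb k - fb k with hw
    have h4 := h3 (fb i)
    rw [om_fb_eb, if_pos rfl, neg_smul, one_smul] at h4
    have h5 : w = om (fb i) w • eb i := by
      rw [neg_add_eq_zero] at h4
      exact h4
    refine ⟨om (fb i) w, ?_, ?_⟩
    · have h6 : om (fb i) w = -om (fb i) w := by
        conv_lhs => rw [h5, om_smul_right, om_fb_eb, if_pos rfl, mul_neg, mul_one]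
      linear_combination h6
    · rw [← h5, hw]
      abel
  obtain ⟨s, hs2, hs⟩ := hf i0 i1 h01
  have hf2 : ∀ k : Fin n, 2 ≤ k.val → z.1 *ᵥ fb k = fb k := by
    intro k hk
    obtain ⟨β, -, hβ⟩ := hf i0 k (by rw [Fin.lt_def]; simp only [hi0]; omega)
    obtain ⟨γ, -, hγ⟩ := hf i1 k (by rw [Fin.lt_def]; simp only [hi1]; omega)
    have h3 : β • (eb i0 : Fin n ⊕ Fin n → F) = γ • eb i1 := by
      rw [hβ] at hγ
      exact add_left_cancel hγ
    have h4 := congrFun h3 (Sum.inl i0)
    rw [Pi.smul_apply, Pi.smul_apply, eb_inl, eb_inl, if_pos rfl, if_neg h01.ne', smul_zero,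
      smul_eq_mul, mul_one] at h4
    rw [hβ, h4, zero_smul, add_zero]
  have hl2 : ∀ x, ∀ k : Fin n, 2 ≤ k.val → (z.1 *ᵥ x) (Sum.inl k) = x (Sum.inl k) := by
    intro x k hk
    rw [hinl, hf2 k hk, sub_self, om_zero_right, sub_zero]
  have hl1 : ∀ x, (z.1 *ᵥ x) (Sum.inl i1) = x (Sum.inl i1) + s * x (Sum.inr i0) := by
    intro x
    rw [hinl, hs, add_sub_cancel_left, om_smul_right, om_eb_right, hinr]
    ring
  set t0 := (z.1 *ᵥ fb i0) (Sum.inl i0) with ht0
  have hf0 : z.1 *ᵥ fb i0 - fb i0 = t0 • eb i0 + s • eb i1 := by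
    funext a
    rcases a with k | k
    · rw [Pi.sub_apply, Pi.add_apply, Pi.smul_apply, Pi.smul_apply, eb_inl, eb_inl, fb_inl,
        sub_zero]
      by_cases hk0 : k = i0
      · rw [hk0, if_pos rfl, if_neg h01.ne', smul_zero, add_zero, smul_eq_mul, mul_one]
      · by_cases hk1 : k = i1
        · rw [hk1, hl1, fb_inl, fb_inr, if_pos rfl, if_neg h01.ne, if_pos rfl, smul_zero, zero_add,
            smul_eq_mul, mul_one, zero_add]
        · have hk : 2 ≤ k.val := by
            have h3 : k.val ≠ 0 := fun h => hk0 (Fin.ext h)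
            have h4 : k.val ≠ 1 := fun h => hk1 (Fin.ext h)
            omega
          rw [hl2 _ k hk, fb_inl, if_neg (Ne.symm hk0), if_neg (Ne.symm hk1), smul_zero, smul_zero,
            add_zero]
    · rw [Pi.sub_apply, hinr, sub_self, Pi.add_apply, Pi.smul_apply, Pi.smul_apply, eb_inr, eb_inr,
        smul_zero, smul_zero, add_zero]
  refine ⟨-t0, -s, by rw [mul_neg, hs2, neg_zero], fun x => ?_⟩
  funext a
  simp only [Pi.add_apply, Pi.smul_apply, smul_eq_mul, om_eb_right]
  rcases a with k | k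
  · rw [eb_inl, eb_inl]
    by_cases hk0 : k = i0
    · rw [hk0, if_pos rfl, if_neg h01.ne', hinl, hf0, om_add_right, om_smul_right, om_smul_right,
        om_eb_right, om_eb_right, hinr, hinr]
      ring
    · by_cases hk1 : k = i1
      · rw [hk1, hl1, if_pos rfl, if_neg h01.ne]
        ring
      · have hk : 2 ≤ k.val := by
          have h3 : k.val ≠ 0 := fun h => hk0 (Fin.ext h)
          have h4 : k.val ≠ 1 := fun h => hk1 (Fin.ext h)
          omega
        rw [hl2 _ k hk, if_neg (Ne.symm hk0), if_neg (Ne.symm hk1)]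
        ring
  · rw [hinr, eb_inr, eb_inr]
    ring

/-- The transvections `T e₀ t` are central in the unitriangular group. -/
theorem T_centre_uu [Finite F] (h : 0 < n) {g : Sp n F} (hg : g ∈ uu n F) (t : F) :
    g * T (eb ⟨0, h⟩) t * g⁻¹ = T (eb ⟨0, h⟩) t := by
  rw [conj_T]
  congr 1
  funext a
  have h1 := mem_uu.mp hg a (Sum.inl ⟨0, h⟩) (by rw [se_inl]; exact Nat.zero_le _)
  rw [apply_eq] at h1
  change (g.1 *ᵥ eb ⟨0, h⟩) a = _ at h1
  rw [h1, eb, Pi.single_apply]

end MP7fP
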